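import Mathlib
import Pool.Agent.V7H37.XE.Leg

/-!
# The finite part of the two-descent on the positive twists of `X_0(15)`

The places `2`, `3`, `5` (congruences modulo `32`, `9`, `25`) and the places `p`, `q` (quadratic characters).
-/

set_option autoImplicit false

namespace Pool.Agent.V7H37.XG

open Pool.Agent.V7H37.XE (S9 S32 S25 vl ch bl c5)

/-- there are `U, V, W, s` in `S`, not all divisible by `l`, with `a U - 16 g s = b V` and `a U + 9 g s = c W` modulo
`M` -/
def okc (S : List ℤ) (M l g a b c : ℤ) : Bool :=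
  S.any fun U => S.any fun s => S.any fun V =>
    ((a * U - 16 * (g * s) - b * V) % M == 0) && S.any fun W =>
      ((a * U + 9 * (g * s) - c * W) % M == 0) &&
        !((U % l == 0) && (V % l == 0) && (W % l == 0) && (s % l == 0))

/-- the quadratic character of `vl i x2 x3 x5` modulo a prime with the residues `r8, r3, r5` -/
def chr (r8 r3 r5 : ℕ) (i x2 x3 x5 : Bool) : Bool :=
  ch (r8 % 4 == 3) (r8 == 3 || r8 == 5) ((r3 == 2) ^^ (r8 % 4 == 3)) (r5 == 2) i x2 x3 x5

/-- the class of a product modulo `5` -/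
def m5 (a b : ℕ) : ℕ := if a = b then 1 else 2

/-- the factor `q` or `1` -/
def cf (x : Bool) (r : ℤ) : ℤ := if x then r else 1

/-- the local conditions at `q`; `A`, `B` are the characters of the parts of `a`, `b` prime to `q`, `m` that of `-1`
and `d` that of the cofactor of `q` in the twist -/
def lq (xa xb A B m d : Bool) : Bool :=
  match xa, xb with
  | false, false => !A && !B
  | true, false => !(A ^^ d) && !B
  | true, true => !(A ^^ (d ^^ m)) && !(B ^^ (d ^^ m))
  | false, true => !(A ^^ m) && !(B ^^ (d ^^ m))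

/-- no class but the trivial one satisfies the local conditions -/
def chk (f p8 p3 p5 : ℕ) (hq : Bool) (q8 q3 q5 : ℕ) (t : Bool) : Bool :=
  bl.all fun i => bl.all fun a2 => bl.all fun a3 => bl.all fun a5 => bl.all fun xa =>
    (xa && !hq) || (chr p8 p3 p5 i a2 a3 a5 ^^ (t && xa)) ||
    bl.all fun b2 => bl.all fun b3 => bl.all fun b5 => bl.all fun xb =>
    (xb && !hq) || (chr p8 p3 p5 i b2 b3 b5 ^^ (t && xb)) ||
    (hq && !lq xa xb (chr q8 q3 q5 i a2 a3 a5) (chr q8 q3 q5 i b2 b3 b5) (q8 % 4 == 3)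
      (chr q8 q3 q5 false (f % 2 == 0) (f % 3 == 0) false ^^ (t ^^ ((p8 % 4 == 3) && (q8 % 4 == 3))))) ||
    !(okc S9 9 3 (f * (p3 * q3 % 3 : ℕ)) (vl i a2 a3 a5 * cf xa q3) (vl i b2 b3 b5 * cf xb q3)
      (vl false (a2 ^^ b2) (a3 ^^ b3) (a5 ^^ b5) * cf (xa ^^ xb) q3)) ||
    !(okc S32 32 2 (f * (p8 * q8 % 8 : ℕ)) (vl i a2 a3 a5 * cf xa q8) (vl i b2 b3 b5 * cf xb q8)
      (vl false (a2 ^^ b2) (a3 ^^ b3) (a5 ^^ b5) * cf (xa ^^ xb) q8)) ||
    !(okc S25 25 5 (f * m5 p5 q5) (vl i a2 a3 a5 * cf xa q5) (vl i b2 b3 b5 * cf xb q5)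
      (vl false (a2 ^^ b2) (a3 ^^ b3) (a5 ^^ b5) * cf (xa ^^ xb) q5)) ||
    (!i && !a2 && !a3 && !a5 && !xa && !b2 && !b3 && !b5 && !xb)

/-- the check for the twist by `6` -/
def chk6 : Bool :=
  bl.all fun i => bl.all fun a2 => bl.all fun a5 => bl.all fun b2 => bl.all fun b5 =>
    !(okc S9 9 3 6 (vl i a2 false a5) (vl i b2 false b5) (vl false (a2 ^^ b2) false (a5 ^^ b5))) ||
    !(okc S32 32 2 6 (vl i a2 false a5) (vl i b2 false b5) (vl false (a2 ^^ b2) false (a5 ^^ b5))) ||
    !(okc S25 25 5 6 (vl i a2 false a5) (vl i b2 false b5) (vl false (a2 ^^ b2) false (a5 ^^ b5))) ||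
    (!i && !a2 && !a5 && !b2 && !b5)

theorem chk6_true : chk6 = true := by decide +kernel

theorem chk_A : (chk 1 3 1 1 false 1 1 1 false && chk 6 3 1 1 false 1 1 1 false) = true := by
  decide +kernel
theorem chk_B : (chk 2 3 2 2 false 1 1 1 false && chk 3 3 2 2 false 1 1 1 false) = true := by
  decide +kernel
theorem chk_C : (chk 2 7 2 2 false 1 1 1 false && chk 3 7 2 2 false 1 1 1 false) = true := by
  decide +kernel
theorem chk_AC : ([false, true].all fun t => chk 2 3 1 1 true 7 2 2 t && chk 3 3 1 1 true 7 2 2 t) = true := by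
  decide +kernel
theorem chk_AB : (chk 2 3 1 1 true 3 2 2 false && chk 3 3 1 1 true 3 2 2 false) = true := by
  decide +kernel
theorem chk_BC : (chk 1 3 2 2 true 7 2 2 false && chk 6 3 2 2 true 7 2 2 false) = true := by
  decide +kernel

end Pool.Agent.V7H37.XG
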