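import Mathlib
import Pool.Agent.V7H37.XG.Chk
import Pool.Agent.V7H37.XE.Sqs

/-! The local conditions: congruences, and the place `q`. -/

set_option autoImplicit false

namespace Pool.Agent.V7H37.XG

open Pool.Agent.V7H37.XE Pool.Agent.V7H16.XF

/-- the numbers `A u ^ 2` are represented modulo `M` by `B U`, `U` in `S` -/
def Rep (S : List ℤ) (M l A B : ℤ) : Prop :=
  ∀ u : ℤ, ∃ U ∈ S, M ∣ A * u ^ 2 - B * U ∧ (U % l = 0 → l ∣ u)

lemma Rep.mul {S : List ℤ} {M l A B : ℤ} (h : Rep S M l A B) (v : ℤ) : Rep S M l (v * A) (v * B) := by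
  intro u
  obtain ⟨U, hU, h1, h2⟩ := h u
  refine ⟨U, hU, ?_, h2⟩
  have e : v * A * u ^ 2 - v * B * U = v * (A * u ^ 2 - B * U) := by ring
  rw [e]
  exact h1.mul_left v

lemma okc_of {S : List ℤ} {M l f n r a b c a' b' c' u v w z : ℤ}
    (ra : Rep S M l a a') (rb : Rep S M l b b') (rc : Rep S M l c c') (rn : Rep S M l n r)
    (e12 : a * u ^ 2 + -16 * (f * n) * z ^ 2 = b * v ^ 2)
    (e13 : a * u ^ 2 + 9 * (f * n) * z ^ 2 = c * w ^ 2)
    (pr : ¬(l ∣ z ∧ l ∣ u ∧ l ∣ v ∧ l ∣ w)) : okc S M l (f * r) a' b' c' = true := by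
  obtain ⟨U, hU, dU, lU⟩ := ra u
  obtain ⟨V, hV, dV, lV⟩ := rb v
  obtain ⟨W, hW, dW, lW⟩ := rc w
  obtain ⟨s, hs, ds, ls⟩ := rn z
  unfold okc
  rw [List.any_eq_true]
  refine ⟨U, hU, ?_⟩
  rw [List.any_eq_true]
  refine ⟨s, hs, ?_⟩
  rw [List.any_eq_true]
  refine ⟨V, hV, ?_⟩
  rw [Bool.and_eq_true]
  constructor
  · rw [beq_iff_eq]
    apply Int.emod_eq_zero_of_dvd
    have : a' * U - 16 * (f * r * s) - b' * V =
        -(a * u ^ 2 - a' * U) + 16 * f * (n * z ^ 2 - r * s) + (b * v ^ 2 - b' * V) := by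
      linear_combination e12
    rw [this]
    exact dvd_add (dvd_add dU.neg_right (ds.mul_left _)) dV
  · rw [List.any_eq_true]
    refine ⟨W, hW, ?_⟩
    rw [Bool.and_eq_true]
    constructor
    · rw [beq_iff_eq]
      apply Int.emod_eq_zero_of_dvd
      have : a' * U + 9 * (f * r * s) - c' * W =
          -(a * u ^ 2 - a' * U) - 9 * f * (n * z ^ 2 - r * s) + (c * w ^ 2 - c' * W) := by
        linear_combination e13
      rw [this]
      exact dvd_add (dvd_sub dU.neg_right (ds.mul_left _)) dW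
    · rw [Bool.not_eq_true', ← Bool.not_eq_true]
      intro h
      simp only [Bool.and_eq_true, beq_iff_eq] at h
      exact pr ⟨ls h.2, lU h.1.1.1, lV h.1.1.2, lW h.1.2⟩

lemma rep_one32 : Rep S32 32 2 1 1 := by
  intro u
  obtain ⟨U, hU, h1, h2⟩ := sq32 u
  exact ⟨U, hU, by simpa using h1, h2⟩

lemma rep_one9 : Rep S9 9 3 1 1 := by
  intro u
  obtain ⟨U, hU, h1, h2⟩ := sq9 u
  exact ⟨U, hU, by simpa using h1, h2⟩

lemma rep_one25 : Rep S25 25 5 1 1 := by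
  intro u
  obtain ⟨U, hU, h1, h2⟩ := sq25 u
  exact ⟨U, hU, by simpa using h1, h2⟩

lemma rep_cf {S : List ℤ} {M l : ℤ} {n r : ℤ} (h1 : Rep S M l 1 1) (h : Rep S M l n r) (x : Bool) (v : ℤ) :
    Rep S M l (v * cf x n) (v * cf x r) := by
  cases x
  · exact h1.mul v
  · exact h.mul v

/-- the place `q`, the point has a square class of valuation `(0, 1, 1)` -/
lemma loc_two {q : ℕ} (hq : q.Prime) {x1 y2 y3 s t1 t2 t3 z δ k2 k3 : ℤ}
    (hs : x1 * (q * y2) * (q * y3) = s ^ 2) (s2 : Squarefree ((q : ℤ) * y2)) (s3 : Squarefree ((q : ℤ) * y3))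
    (hd : Squarefree ((q : ℤ) * δ)) (n1 : ¬(q : ℤ) ∣ x1)
    (e12 : x1 * t1 ^ 2 + k2 * (q * δ) * z ^ 2 = (q * y2) * t2 ^ 2)
    (e13 : x1 * t1 ^ 2 + k3 * (q * δ) * z ^ 2 = (q * y3) * t3 ^ 2)
    (pr : ¬((q : ℤ) ∣ z ∧ (q : ℤ) ∣ t1 ∧ (q : ℤ) ∣ t2 ∧ (q : ℤ) ∣ t3))
    (hk2 : ¬(q : ℤ) ∣ k2) (hk3 : ¬(q : ℤ) ∣ k3) :
    IsSquare ((x1 * (k2 * k3) : ℤ) : ZMod q) ∧ IsSquare ((y2 * (δ * k2) : ℤ) : ZMod q) ∧
      IsSquare ((y3 * (δ * k3) : ℤ) : ZMod q) := by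
  have : Fact q.Prime := ⟨hq⟩
  have hp : Prime (q : ℤ) := Nat.prime_iff_prime_int.1 hq
  have nδ := sqf_div hq hd
  have ny2 := sqf_div hq s2
  have ny3 := sqf_div hq s3
  -- `q` divides `t1`
  have d1 : (q : ℤ) ∣ t1 := by
    have h1 : (q : ℤ) ∣ x1 * t1 ^ 2 := ⟨y2 * t2 ^ 2 - k2 * δ * z ^ 2, by linear_combination e12⟩
    rcases hp.dvd_or_dvd h1 with h | h
    · exact absurd h n1
    · exact hp.dvd_of_dvd_pow h
  obtain ⟨τ, rfl⟩ := d1
  have g2 : k2 * δ * z ^ 2 + q * (x1 * τ ^ 2) = y2 * t2 ^ 2 := by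
    apply mul_left_cancel₀ hp.ne_zero
    linear_combination e12
  have g3 : k3 * δ * z ^ 2 + q * (x1 * τ ^ 2) = y3 * t3 ^ 2 := by
    apply mul_left_cancel₀ hp.ne_zero
    linear_combination e13
  have q0 : (((q : ℤ) : ℤ) : ZMod q) = 0 := by rw [zm]
  have f2 := congrArg (fun t : ℤ => (t : ZMod q)) g2
  have f3 := congrArg (fun t : ℤ => (t : ZMod q)) g3
  simp only [Int.cast_mul, Int.cast_add, Int.cast_pow] at f2 f3
  rw [q0] at f2 f3
  have hds : (q : ℤ) ∣ s := by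
    have h1 : (q : ℤ) ∣ s ^ 2 := ⟨x1 * y2 * (q * y3), by rw [← hs]; ring⟩
    exact hp.dvd_of_dvd_pow h1
  obtain ⟨σ, rfl⟩ := hds
  have gs : x1 * y2 * y3 = σ ^ 2 := by
    apply mul_left_cancel₀ hp.ne_zero
    apply mul_left_cancel₀ hp.ne_zero
    linear_combination hs
  have fs := congrArg (fun t : ℤ => (t : ZMod q)) gs
  simp only [Int.cast_mul, Int.cast_pow] at fs
  rw [← zm] at nδ ny2 ny3 hk2 hk3
  have z0 : (z : ZMod q) ≠ 0 := by
    intro h0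
    rw [h0] at f2 f3
    have h2 : (t2 : ZMod q) = 0 := by
      have : (y2 : ZMod q) * (t2 : ZMod q) ^ 2 = 0 := by rw [← f2]; ring
      rcases mul_eq_zero.1 this with h | h
      · exact absurd h ny2
      · exact pow_eq_zero_iff two_ne_zero |>.1 h
    have h3 : (t3 : ZMod q) = 0 := by
      have : (y3 : ZMod q) * (t3 : ZMod q) ^ 2 = 0 := by rw [← f3]; ring
      rcases mul_eq_zero.1 this with h | h
      · exact absurd h ny3
      · exact pow_eq_zero_iff two_ne_zero |>.1 h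
    rw [zm] at h0 h2 h3
    exact pr ⟨h0, ⟨τ, rfl⟩, h2, h3⟩
  have hδ : (δ : ZMod q) ≠ 0 := nδ
  have t20 : (t2 : ZMod q) ≠ 0 := by
    intro h0
    rw [h0] at f2
    have : (k2 : ZMod q) * δ * (z : ZMod q) ^ 2 = 0 := by linear_combination f2
    exact mul_ne_zero (mul_ne_zero hk2 hδ) (pow_ne_zero 2 z0) this
  have t30 : (t3 : ZMod q) ≠ 0 := by
    intro h0
    rw [h0] at f3
    have : (k3 : ZMod q) * δ * (z : ZMod q) ^ 2 = 0 := by linear_combination f3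
    exact mul_ne_zero (mul_ne_zero hk3 hδ) (pow_ne_zero 2 z0) this
  have g2' : (y2 : ZMod q) * (t2 : ZMod q) ^ 2 = k2 * δ * (z : ZMod q) ^ 2 := by linear_combination -f2
  have g3' : (y3 : ZMod q) * (t3 : ZMod q) ^ 2 = k3 * δ * (z : ZMod q) ^ 2 := by linear_combination -f3
  refine ⟨?_, ⟨k2 * δ * z / t2, ?_⟩, ⟨k3 * δ * z / t3, ?_⟩⟩
  · refine ⟨σ * t2 * t3 / (δ * z ^ 2), ?_⟩
    have hm : (δ : ZMod q) * (z : ZMod q) ^ 2 ≠ 0 := mul_ne_zero hδ (pow_ne_zero 2 z0)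
    rw [div_mul_div_comm, eq_div_iff (mul_ne_zero hm hm)]
    push_cast
    have e : (σ : ZMod q) * t2 * t3 * (σ * t2 * t3) = x1 * ((y2 : ZMod q) * (t2 : ZMod q) ^ 2) *
        ((y3 : ZMod q) * (t3 : ZMod q) ^ 2) := by
      linear_combination (-(t2 : ZMod q) ^ 2 * (t3 : ZMod q) ^ 2) * fs
    rw [e, g2', g3']
    ring
  · rw [div_mul_div_comm, eq_div_iff (mul_ne_zero t20 t20)]
    push_cast
    linear_combination ((k2 : ZMod q) * δ) * g2'
  · rw [div_mul_div_comm, eq_div_iff (mul_ne_zero t30 t30)]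
    push_cast
    linear_combination ((k3 : ZMod q) * δ) * g3'

/-- the characters of sign and small primes -/
lemma leg_vl {p : ℕ} [hp : Fact p.Prime] (h5 : 5 < p) (i x2 x3 x5 : Bool) :
    legendreSym p (vl i x2 x3 x5) = sg (chr (p % 8) (p % 3) (c5 p) i x2 x3 x5) := by
  unfold vl
  rw [legendreSym.mul, legendreSym.mul, legendreSym.mul, leg_sg _ _ _ (leg0 h5), leg_sg _ _ _ (leg2 h5),
    leg_sg _ _ _ (leg3 h5), leg_sg _ _ _ (leg5 h5)]
  unfold chr ch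
  generalize ((p % 8 % 4 == 3) && i) = b0
  generalize ((p % 8 == 3 || p % 8 == 5) && x2) = b2
  generalize ((((p % 3 == 2) ^^ (p % 8 % 4 == 3))) && x3) = b3
  generalize ((c5 p == 2) && x5) = b5
  cases b0 <;> cases b2 <;> cases b3 <;> cases b5 <;> decide

lemma sg_mul (a b : Bool) : sg a * sg b = sg (a ^^ b) := by
  cases a <;> cases b <;> decide

lemma sg_one {a : Bool} (h : sg a = 1) : a = false := by
  revert h; cases a <;> decide

lemma leg_cf {p : ℕ} [hp : Fact p.Prime] {n : ℤ} {t : Bool} (h : legendreSym p n = sg t) (x : Bool) :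
    legendreSym p (cf x n) = sg (t && x) := by
  cases x
  · simp [cf, sg]
  · simpa [cf] using h

end Pool.Agent.V7H37.XG
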