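import Mathlib
import Pool.Agent.V7H37.XG.Loc

/-! The square classes of a rational point on the twist by `f p q`: the classes supported at `2, 3, 5, q`. -/

set_option autoImplicit false

namespace Pool.Agent.V7H37.XG

open Pool.Agent.V7H37.XE Pool.Agent.V7H16.XF

/-- the data of a twist -/
structure Dat (f p q : ℕ) (t : Bool) : Prop where
  f6 : f ∣ 6
  pp : p.Prime
  p5 : 5 < p
  qq : q = 1 ∨ (q.Prime ∧ 5 < q ∧ q ≠ p)
  ht : @legendreSym p ⟨pp⟩ q = sg t
  tab : chk f (p % 8) (p % 3) (c5 p) (decide (1 < q)) (q % 8) (q % 3) (c5 q) t = true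

lemma shape_q {q : ℕ} (hq : q = 1 ∨ (q.Prime ∧ 5 < q)) {n : ℤ} (hn : Squarefree n)
    (h : ∀ l : ℕ, l.Prime → (l : ℤ) ∣ n → l = 2 ∨ l = 3 ∨ l = 5 ∨ l = q) :
    n = vl (decide (n < 0)) (decide ((2 : ℤ) ∣ n)) (decide ((3 : ℤ) ∣ n)) (decide ((5 : ℤ) ∣ n)) *
      cf (decide (1 < q ∧ (q : ℤ) ∣ n)) q := by
  by_cases hd : 1 < q ∧ (q : ℤ) ∣ n
  · rcases hq with rfl | ⟨hq, h5⟩
    · omega
    obtain ⟨-, m, rfl⟩ := hd
    have hm : Squarefree m := hn.squarefree_of_dvd ⟨q, by ring⟩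
    have hqm := sqf_div hq hn
    have hs := small_shape hm (fun l hl hlm => by
      rcases h l hl (hlm.mul_left _) with h1 | h1 | h1 | h1
      · exact Or.inl h1
      · exact Or.inr (Or.inl h1)
      · exact Or.inr (Or.inr h1)
      · subst h1; exact absurd hlm hqm)
    have hq0 : (0 : ℤ) < q := by exact_mod_cast hq.pos
    have c0 : decide ((q : ℤ) * m < 0) = decide (m < 0) := by
      rw [decide_eq_decide]
      constructor
      · intro h1
        by_contra h2
        push Not at h2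
        have := mul_nonneg hq0.le h2
        omega
      · intro h1
        exact mul_neg_of_pos_of_neg hq0 h1
    have cl : ∀ l : ℕ, l.Prime → l ≤ 5 → decide ((l : ℤ) ∣ (q : ℤ) * m) = decide ((l : ℤ) ∣ m) := by
      intro l hl hl5
      rw [decide_eq_decide]
      constructor
      · intro h1
        rcases (Nat.prime_iff_prime_int.1 hl).dvd_or_dvd h1 with h2 | h2
        · have h3 : l ∣ q := by exact_mod_cast h2
          have := (Nat.prime_dvd_prime_iff_eq hl hq).1 h3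
          omega
        · exact h2
      · intro h1; exact h1.mul_left _
    have c2 := cl 2 Nat.prime_two (by norm_num)
    have c3 := cl 3 Nat.prime_three (by norm_num)
    have c5' := cl 5 Nat.prime_five (by norm_num)
    push_cast at c2 c3 c5'
    have hd1 : decide (1 < q ∧ (q : ℤ) ∣ (q : ℤ) * m) = true := by
      rw [decide_eq_true_iff]
      exact ⟨by omega, dvd_mul_right _ _⟩
    rw [c0, c2, c3, c5', hd1, ← hs]
    simp [cf, mul_comm]
  · have hd1 : decide (1 < q ∧ (q : ℤ) ∣ n) = false := by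
      rw [decide_eq_false_iff_not]; exact hd
    have hs := small_shape hn (fun l hl hlm => by
      rcases h l hl hlm with h1 | h1 | h1 | h1
      · exact Or.inl h1
      · exact Or.inr (Or.inl h1)
      · exact Or.inr (Or.inr h1)
      · subst h1; exact absurd ⟨hl.one_lt, hlm⟩ hd)
    rw [hd1, ← hs]
    simp [cf]

section

variable {q : ℕ} [hq : Fact q.Prime]

lemma one_of_sq {X : ℤ} {b : Bool} (h : IsSquare (X : ZMod q)) (e : legendreSym q X = sg b) : b = false := by
  have hne : (X : ZMod q) ≠ 0 := by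
    intro h0
    rw [(legendreSym.eq_zero_iff q X).2 h0] at e
    cases b <;> simp [sg] at e
  exact sg_one (e.symm.trans ((legendreSym.eq_one_iff q hne).2 h))

lemma leg_sq {X : ℤ} {b : Bool} (e : legendreSym q X = sg b) : legendreSym q (X * X) = 1 := by
  rw [legendreSym.mul, e]
  cases b <;> simp [sg]

lemma leg9 (h5 : 5 < q) : legendreSym q 9 = 1 := leg_sq (X := 3) (leg3 h5)
lemma leg16 (h5 : 5 < q) : legendreSym q 16 = 1 := by
  have h2 := leg_sq (X := 2) (leg2 h5)
  have : (16 : ℤ) = (2 * 2) * (2 * 2) := by norm_num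
  rw [this, legendreSym.mul, h2]; norm_num
lemma leg25 (h5 : 5 < q) : legendreSym q 25 = 1 := leg_sq (X := 5) (leg5 h5)

lemma recip {p : ℕ} [hp : Fact p.Prime] (p5 : 5 < p) (q5 : 5 < q) {t : Bool}
    (ht : legendreSym p q = sg t) :
    legendreSym q p = sg (t ^^ ((p % 8 % 4 == 3) && (q % 8 % 4 == 3))) := by
  have op : p % 2 = 1 := by
    rcases hp.out.eq_two_or_odd with h | h
    · omega
    · exact h
  have oq : q % 2 = 1 := by
    rcases hq.out.eq_two_or_odd with h | h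
    · omega
    · exact h
  have e1 : p % 8 % 4 = p % 4 := by omega
  have e2 : q % 8 % 4 = q % 4 := by omega
  rw [e1, e2]
  have h1 : p % 4 = 1 ∨ p % 4 = 3 := by omega
  have h2 : q % 4 = 1 ∨ q % 4 = 3 := by omega
  rcases h1 with h1 | h1
  · rw [legendreSym.quadratic_reciprocity_one_mod_four h1 (by omega), ht, h1]
    simp
  · rcases h2 with h2 | h2
    · rw [← legendreSym.quadratic_reciprocity_one_mod_four h2 (by omega), ht, h2]
      simp
    · rw [legendreSym.quadratic_reciprocity_three_mod_four h1 h2, ht, h1, h2]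
      cases t <;> decide

end

lemma f_vl {f : ℕ} (h : f ∣ 6) : (f : ℤ) = vl false (f % 2 == 0) (f % 3 == 0) false := by
  have : f ≤ 6 := Nat.le_of_dvd (by norm_num) h
  interval_cases f <;> revert h <;> decide

lemma mem_bl' (b : Bool) : b ∈ bl := by cases b <;> decide

lemma chk_spec {f p8 p3 p5 : ℕ} {hq : Bool} {q8 q3 q5 : ℕ} {t : Bool} (h : chk f p8 p3 p5 hq q8 q3 q5 t = true)
    {i a2 a3 a5 xa b2 b3 b5 xb : Bool}
    (qa : (xa && !hq) = false) (qb : (xb && !hq) = false)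
    (ca : (chr p8 p3 p5 i a2 a3 a5 ^^ (t && xa)) = false)
    (cb : (chr p8 p3 p5 i b2 b3 b5 ^^ (t && xb)) = false)
    (cq : (hq && !lq xa xb (chr q8 q3 q5 i a2 a3 a5) (chr q8 q3 q5 i b2 b3 b5) (q8 % 4 == 3)
      (chr q8 q3 q5 false (f % 2 == 0) (f % 3 == 0) false ^^ (t ^^ ((p8 % 4 == 3) && (q8 % 4 == 3))))) = false)
    (o9 : okc S9 9 3 (f * (p3 * q3 % 3 : ℕ)) (vl i a2 a3 a5 * cf xa q3) (vl i b2 b3 b5 * cf xb q3)
      (vl false (a2 ^^ b2) (a3 ^^ b3) (a5 ^^ b5) * cf (xa ^^ xb) q3) = true)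
    (o32 : okc S32 32 2 (f * (p8 * q8 % 8 : ℕ)) (vl i a2 a3 a5 * cf xa q8) (vl i b2 b3 b5 * cf xb q8)
      (vl false (a2 ^^ b2) (a3 ^^ b3) (a5 ^^ b5) * cf (xa ^^ xb) q8) = true)
    (o25 : okc S25 25 5 (f * m5 p5 q5) (vl i a2 a3 a5 * cf xa q5) (vl i b2 b3 b5 * cf xb q5)
      (vl false (a2 ^^ b2) (a3 ^^ b3) (a5 ^^ b5) * cf (xa ^^ xb) q5) = true) :
    i = false ∧ (a2 = false ∧ a3 = false ∧ a5 = false ∧ xa = false) ∧
      (b2 = false ∧ b3 = false ∧ b5 = false ∧ xb = false) := by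
  unfold chk at h
  have h1 := List.all_eq_true.1 h i (mem_bl' i)
  have h2 := List.all_eq_true.1 h1 a2 (mem_bl' a2)
  have h3 := List.all_eq_true.1 h2 a3 (mem_bl' a3)
  have h4 := List.all_eq_true.1 h3 a5 (mem_bl' a5)
  have h5 := List.all_eq_true.1 h4 xa (mem_bl' xa)
  rw [qa, ca, Bool.false_or, Bool.false_or] at h5
  have h6 := List.all_eq_true.1 h5 b2 (mem_bl' b2)
  have h7 := List.all_eq_true.1 h6 b3 (mem_bl' b3)
  have h8 := List.all_eq_true.1 h7 b5 (mem_bl' b5)
  have h9 := List.all_eq_true.1 h8 xb (mem_bl' xb)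
  rw [qb, cb, cq, o9, o32, o25] at h9
  clear h h1 h2 h3 h4 h5 h6 h7 h8 qa qb ca cb cq o9 o32 o25
  revert h9
  cases i <;> cases a2 <;> cases a3 <;> cases a5 <;> cases xa <;> cases b2 <;> cases b3 <;> cases b5 <;>
    cases xb <;> decide

end Pool.Agent.V7H37.XG
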