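import Mathlib
import Pool.Agent.V7H37.XG.Main

/-! The square classes of a rational point on the twist by `f p q`: conclusion. -/

set_option autoImplicit false

namespace Pool.Agent.V7H37.XG

open Pool.Agent.V7H37.XE Pool.Agent.V7H16.XF

lemma Dat.q0 {f p q : ℕ} {t : Bool} (H : Dat f p q t) : q = 1 ∨ (q.Prime ∧ 5 < q) := by
  rcases H.qq with h | h
  · exact Or.inl h
  · exact Or.inr ⟨h.1, h.2.1⟩

lemma Dat.sf {f p q : ℕ} {t : Bool} (H : Dat f p q t) : Squarefree (f * (p * q)) := by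
  have s6 : Squarefree 6 := by
    rw [show 6 = 2 * 3 by norm_num]
    rw [Nat.squarefree_mul (by norm_num)]
    exact ⟨Nat.prime_two.prime.irreducible.squarefree, Nat.prime_three.prime.irreducible.squarefree⟩
  have sf := s6.squarefree_of_dvd H.f6
  have p30 : ∀ l : ℕ, l.Prime → l ∣ f → l = 2 ∨ l = 3 := by
    intro l hl h
    have h6 : l ∣ 2 * 3 := (h.trans H.f6).trans (by norm_num)
    rcases hl.dvd_mul.1 h6 with h4 | h4
    · exact Or.inl ((Nat.prime_dvd_prime_iff_eq hl Nat.prime_two).1 h4)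
    · exact Or.inr ((Nat.prime_dvd_prime_iff_eq hl Nat.prime_three).1 h4)
  have p5 := H.p5
  rcases H.qq with hq | ⟨hq, h5, hqp⟩
  · subst hq
    rw [mul_one]
    have c2 : Nat.Coprime f p := by
      apply Nat.coprime_of_dvd
      intro l hl h1 h2
      have h3 := p30 l hl h1
      have := (Nat.prime_dvd_prime_iff_eq hl H.pp).1 h2
      omega
    rw [Nat.squarefree_mul c2]
    exact ⟨sf, H.pp.prime.irreducible.squarefree⟩
  · have c1 : Nat.Coprime p q := (Nat.coprime_primes H.pp hq).2 (Ne.symm hqp)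
    have c2 : Nat.Coprime f (p * q) := by
      apply Nat.coprime_of_dvd
      intro l hl h1 h2
      have h3 := p30 l hl h1
      rcases hl.dvd_mul.1 h2 with h4 | h4
      · have := (Nat.prime_dvd_prime_iff_eq hl H.pp).1 h4
        omega
      · have := (Nat.prime_dvd_prime_iff_eq hl hq).1 h4
        omega
    rw [Nat.squarefree_mul c2, Nat.squarefree_mul c1]
    exact ⟨sf, H.pp.prime.irreducible.squarefree, hq.prime.irreducible.squarefree⟩

lemma m5_mul {p q : ℕ} (hp : p % 5 ≠ 0) (hq : q % 5 ≠ 0) : c5 (p * q) = m5 (c5 p) (c5 q) ∧ (p * q) % 5 ≠ 0 := by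
  unfold c5 m5
  rw [Nat.mul_mod]
  have h1 : p % 5 = 1 ∨ p % 5 = 2 ∨ p % 5 = 3 ∨ p % 5 = 4 := by omega
  have h2 : q % 5 = 1 ∨ q % 5 = 2 ∨ q % 5 = 3 ∨ q % 5 = 4 := by omega
  rcases h1 with h | h | h | h <;> rcases h2 with h' | h' | h' | h' <;> rw [h, h'] <;> decide

/-- the decompositions of the classes -/
lemma final {f p q : ℕ} {t : Bool} (H : Dat f p q t) {a b c s u v w z : ℤ}
    (QQ : Quad (-16 * ((f * (p * q) : ℕ) : ℤ)) (9 * ((f * (p * q) : ℕ) : ℤ)) a b c s u v w z)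
    (hc0 : 0 < c) (hab0 : 0 < a * b)
    (ga : ∀ l : ℕ, l.Prime → (l : ℤ) ∣ a → l = 2 ∨ l = 3 ∨ l = 5 ∨ l = q)
    (gb : ∀ l : ℕ, l.Prime → (l : ℤ) ∣ b → l = 2 ∨ l = 3 ∨ l = 5 ∨ l = q)
    (sa : IsSquare (a : ZMod p)) (sb : IsSquare (b : ZMod p)) : a = 1 ∧ b = 1 ∧ c = 1 := by
  have hpF : Fact p.Prime := ⟨H.pp⟩
  have gc : ∀ l : ℕ, l.Prime → (l : ℤ) ∣ c → l = 2 ∨ l = 3 ∨ l = 5 ∨ l = q := by
    intro l hl h
    have hp := par QQ.ha QQ.hb QQ.hc QQ.hs hl
    by_cases h1 : (l : ℤ) ∣ a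
    · exact ga l hl h1
    · exact gb l hl ((hp.2 h1).2 h)
  have ea := shape_q H.q0 QQ.ha ga
  have eb := shape_q H.q0 QQ.hb gb
  have ec := shape_q H.q0 QQ.hc gc
  have hsgn : decide (b < 0) = decide (a < 0) := by
    rw [decide_eq_decide]
    constructor
    · intro h
      by_contra h1
      push Not at h1
      have := mul_nonpos_of_nonneg_of_nonpos h1 h.le
      omega
    · intro h
      by_contra h1
      push Not at h1
      have := mul_nonpos_of_nonpos_of_nonneg h.le h1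
      omega
  have hsc : decide (c < 0) = false := by
    rw [decide_eq_false_iff_not]; omega
  have hx : ∀ l : ℕ, l.Prime → decide ((l : ℤ) ∣ c) = (decide ((l : ℤ) ∣ a) ^^ decide ((l : ℤ) ∣ b)) := by
    intro l hl
    have hp := par QQ.ha QQ.hb QQ.hc QQ.hs hl
    by_cases h1 : (l : ℤ) ∣ a
    · rcases hp.1 h1 with ⟨h2, h3⟩ | ⟨h2, h3⟩
      · simp [h1, h2, h3]
      · simp [h1, h2, h3]
    · have h2 := hp.2 h1
      by_cases h3 : (l : ℤ) ∣ b
      · simp [h1, h3, h2.1 h3]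
      · have h4 : ¬(l : ℤ) ∣ c := fun h => h3 (h2.2 h)
        simp [h1, h3, h4]
  have x2 := hx 2 Nat.prime_two
  have x3 := hx 3 Nat.prime_three
  have x5 := hx 5 Nat.prime_five
  push_cast at x2 x3 x5
  have xq : decide (1 < q ∧ (q : ℤ) ∣ c) = (decide (1 < q ∧ (q : ℤ) ∣ a) ^^ decide (1 < q ∧ (q : ℤ) ∣ b)) := by
    rcases H.q0 with rfl | ⟨hq, h5⟩
    · simp
    · have h1 : 1 < q := by omega
      have := hx q hq
      simp only [h1, true_and]
      exact this
  -- the conditions at `q`, before the generalization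
  have na : (decide (1 < q ∧ (q : ℤ) ∣ a) && !decide (1 < q)) = false := by
    by_cases h : 1 < q <;> simp [h]
  have nb : (decide (1 < q ∧ (q : ℤ) ∣ b) && !decide (1 < q)) = false := by
    by_cases h : 1 < q <;> simp [h]
  have vq : q.Prime → ((decide (1 < q ∧ (q : ℤ) ∣ a) = true ↔ (q : ℤ) ∣ a) ∧
      (decide (1 < q ∧ (q : ℤ) ∣ b) = true ↔ (q : ℤ) ∣ b)) := by
    intro hq
    have := hq.one_lt
    simp [this]
  rw [hsgn] at eb
  rw [hsc, x2, x3, x5, xq] at ec
  generalize decide (a < 0) = i at ea eb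
  generalize decide ((2 : ℤ) ∣ a) = a2 at ea ec
  generalize decide ((3 : ℤ) ∣ a) = a3 at ea ec
  generalize decide ((5 : ℤ) ∣ a) = a5 at ea ec
  generalize decide (1 < q ∧ (q : ℤ) ∣ a) = xa at ea ec na vq
  generalize decide ((2 : ℤ) ∣ b) = b2 at eb ec
  generalize decide ((3 : ℤ) ∣ b) = b3 at eb ec
  generalize decide ((5 : ℤ) ∣ b) = b5 at eb ec
  generalize decide (1 < q ∧ (q : ℤ) ∣ b) = xb at eb ec nb vq
  -- residues
  have h2p : ¬ 2 ∣ p := dvd_of (p := p) Nat.prime_two H.p5 (by norm_num)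
  have h3p : ¬ 3 ∣ p := dvd_of (p := p) Nat.prime_three H.p5 (by norm_num)
  have h5p : ¬ 5 ∣ p := dvd_of (p := p) Nat.prime_five H.p5 (by norm_num)
  have hqn : ¬ 2 ∣ q ∧ ¬ 3 ∣ q ∧ ¬ 5 ∣ q := by
    rcases H.q0 with rfl | ⟨hq, h5⟩
    · decide
    · have : Fact q.Prime := ⟨hq⟩
      exact ⟨dvd_of (p := q) Nat.prime_two h5 (by norm_num), dvd_of (p := q) Nat.prime_three h5 (by norm_num),
        dvd_of (p := q) Nat.prime_five h5 (by norm_num)⟩
  obtain ⟨h2q, h3q, h5q⟩ := hqn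
  have n8 : (p * q) % 8 = (p % 8) * (q % 8) % 8 := Nat.mul_mod _ _ _
  have n3 : (p * q) % 3 = (p % 3) * (q % 3) % 3 := Nat.mul_mod _ _ _
  have n5 := m5_mul (p := p) (q := q) (by omega) (by omega)
  have m8 : (p * q) % 2 ≠ 0 := by
    have h1 : p % 2 = 1 := by omega
    have h2 : q % 2 = 1 := by omega
    rw [Nat.mul_mod, h1, h2]; decide
  have m3 : (p * q) % 3 ≠ 0 := by
    rw [Nat.mul_mod]
    have h1 : p % 3 = 1 ∨ p % 3 = 2 := by omega
    have h2 : q % 3 = 1 ∨ q % 3 = 2 := by omega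
    rcases h1 with h1 | h1 <;> rcases h2 with h2 | h2 <;> rw [h1, h2] <;> decide
  have e12 : a * u ^ 2 + -16 * ((f : ℤ) * ((p * q : ℕ) : ℤ)) * z ^ 2 = b * v ^ 2 := by
    have := QQ.e12
    push_cast at this ⊢
    linear_combination this
  have e13 : a * u ^ 2 + 9 * ((f : ℤ) * ((p * q : ℕ) : ℤ)) * z ^ 2 = c * w ^ 2 := by
    have := QQ.e13
    push_cast at this ⊢
    linear_combination this
  have r9 : Rep S9 9 3 (q : ℤ) ((q % 3 : ℕ) : ℤ) := tw9 q (by omega)
  have r32 : Rep S32 32 2 (q : ℤ) ((q % 8 : ℕ) : ℤ) := tw32 q (by omega)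
  have r25 : Rep S25 25 5 (q : ℤ) ((c5 q : ℕ) : ℤ) := tw25 q (by omega)
  have o9 : okc S9 9 3 (f * ((p % 3) * (q % 3) % 3 : ℕ)) (vl i a2 a3 a5 * cf xa (q % 3 : ℕ))
      (vl i b2 b3 b5 * cf xb (q % 3 : ℕ))
      (vl false (a2 ^^ b2) (a3 ^^ b3) (a5 ^^ b5) * cf (xa ^^ xb) (q % 3 : ℕ)) = true := by
    rw [← n3]
    refine okc_of (a := a) (b := b) (c := c) (n := ((p * q : ℕ) : ℤ)) ?_ ?_ ?_ (tw9 (p * q) m3) e12 e13
      (by have := QQ.pr 3 Nat.prime_three; exact_mod_cast this)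
    · rw [ea]; exact rep_cf rep_one9 r9 _ _
    · rw [eb]; exact rep_cf rep_one9 r9 _ _
    · rw [ec]; exact rep_cf rep_one9 r9 _ _
  have o32 : okc S32 32 2 (f * ((p % 8) * (q % 8) % 8 : ℕ)) (vl i a2 a3 a5 * cf xa (q % 8 : ℕ))
      (vl i b2 b3 b5 * cf xb (q % 8 : ℕ))
      (vl false (a2 ^^ b2) (a3 ^^ b3) (a5 ^^ b5) * cf (xa ^^ xb) (q % 8 : ℕ)) = true := by
    rw [← n8]
    refine okc_of (a := a) (b := b) (c := c) (n := ((p * q : ℕ) : ℤ)) ?_ ?_ ?_ (tw32 (p * q) m8) e12 e13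
      (by have := QQ.pr 2 Nat.prime_two; exact_mod_cast this)
    · rw [ea]; exact rep_cf rep_one32 r32 _ _
    · rw [eb]; exact rep_cf rep_one32 r32 _ _
    · rw [ec]; exact rep_cf rep_one32 r32 _ _
  have o25 : okc S25 25 5 (f * m5 (c5 p) (c5 q)) (vl i a2 a3 a5 * cf xa (c5 q))
      (vl i b2 b3 b5 * cf xb (c5 q))
      (vl false (a2 ^^ b2) (a3 ^^ b3) (a5 ^^ b5) * cf (xa ^^ xb) (c5 q)) = true := by
    rw [← n5.1]
    refine okc_of (a := a) (b := b) (c := c) (n := ((p * q : ℕ) : ℤ)) ?_ ?_ ?_ (tw25 (p * q) n5.2) e12 e13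
      (by have := QQ.pr 5 Nat.prime_five; exact_mod_cast this)
    · rw [ea]; exact rep_cf rep_one25 r25 _ _
    · rw [eb]; exact rep_cf rep_one25 r25 _ _
    · rw [ec]; exact rep_cf rep_one25 r25 _ _
  -- the place `p`
  have ca : (chr (p % 8) (p % 3) (c5 p) i a2 a3 a5 ^^ (t && xa)) = false := by
    refine one_of_sq sa ?_
    rw [ea, legendreSym.mul, leg_vl H.p5, leg_cf H.ht, sg_mul]
  have cb : (chr (p % 8) (p % 3) (c5 p) i b2 b3 b5 ^^ (t && xb)) = false := by
    refine one_of_sq sb ?_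
    rw [eb, legendreSym.mul, leg_vl H.p5, leg_cf H.ht, sg_mul]
  -- the place `q`
  have cq : (decide (1 < q) && !lq xa xb (chr (q % 8) (q % 3) (c5 q) i a2 a3 a5)
      (chr (q % 8) (q % 3) (c5 q) i b2 b3 b5) (q % 8 % 4 == 3)
      (chr (q % 8) (q % 3) (c5 q) false (f % 2 == 0) (f % 3 == 0) false ^^
        (t ^^ ((p % 8 % 4 == 3) && (q % 8 % 4 == 3))))) = false := by
    rcases H.qq with rfl | ⟨hq, h5, hqp⟩
    · simp
    have hqF : Fact q.Prime := ⟨hq⟩
    obtain ⟨va, vb⟩ := vq hq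
    have hdz : Squarefree ((f * (p * q) : ℕ) : ℤ) := Int.squarefree_natCast.2 H.sf
    have hD : ((f * (p * q) : ℕ) : ℤ) = q * ((f : ℤ) * p) := by push_cast; ring
    rw [hD] at hdz
    have nk : ∀ k : ℕ, (∀ r : ℕ, r.Prime → r ∣ k → r ≤ 5) → ¬(q : ℤ) ∣ k := by
      intro k hk h
      have := hk q hq (by exact_mod_cast h)
      omega
    have k9 : ¬(q : ℤ) ∣ 9 := nk 9 (fun r hr h => by
      have := hr.dvd_of_dvd_pow (show r ∣ 3 ^ 2 by simpa using h)
      exact (Nat.le_of_dvd (by norm_num) this).trans (by norm_num))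
    have k16 : ¬(q : ℤ) ∣ 16 := nk 16 (fun r hr h => by
      have := hr.dvd_of_dvd_pow (show r ∣ 2 ^ 4 by simpa using h)
      exact (Nat.le_of_dvd (by norm_num) this).trans (by norm_num))
    have k25 : ¬(q : ℤ) ∣ 25 := nk 25 (fun r hr h => by
      have := hr.dvd_of_dvd_pow (show r ∣ 5 ^ 2 by simpa using h)
      exact (Nat.le_of_dvd (by norm_num) this).trans (by norm_num))
    have hf := f_vl H.f6
    have lf : legendreSym q (f : ℤ) = sg (chr (q % 8) (q % 3) (c5 q) false (f % 2 == 0) (f % 3 == 0) false) := by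
      rw [hf]; exact leg_vl h5 _ _ _ _
    have lp := recip (p := p) (q := q) H.p5 h5 H.ht
    have l0 := leg0 (p := q) h5
    have l9 := leg9 (q := q) h5
    have l16 := leg16 (q := q) h5
    have l25 := leg25 (q := q) h5
    have lA := leg_vl (p := q) h5 i a2 a3 a5
    have lB := leg_vl (p := q) h5 i b2 b3 b5
    have E12 : a * u ^ 2 + -16 * (q * ((f : ℤ) * p)) * z ^ 2 = b * v ^ 2 := by rw [← hD]; exact QQ.e12
    have E13 : a * u ^ 2 + 9 * (q * ((f : ℤ) * p)) * z ^ 2 = c * w ^ 2 := by rw [← hD]; exact QQ.e13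
    have pr := QQ.pr q hq
    have hs := QQ.hs
    have hpar := par QQ.ha QQ.hb QQ.hc QQ.hs hq
    have sA := QQ.ha
    have sB := QQ.hb
    have sC := QQ.hc
    generalize chr (q % 8) (q % 3) (c5 q) false (f % 2 == 0) (f % 3 == 0) false = F at *
    generalize (t ^^ ((p % 8 % 4 == 3) && (q % 8 % 4 == 3))) = T at *
    generalize (q % 8 % 4 == 3) = m at *
    generalize chr (q % 8) (q % 3) (c5 q) i a2 a3 a5 = A at *
    generalize chr (q % 8) (q % 3) (c5 q) i b2 b3 b5 = B at *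
    generalize vl i a2 a3 a5 = α at *
    generalize vl i b2 b3 b5 = β at *
    generalize vl false (a2 ^^ b2) (a3 ^^ b3) (a5 ^^ b5) = γ at *
    have key : lq xa xb A B m (F ^^ T) = true := by
      cases xa <;> cases xb
      · -- `(0, 0)`
        have h1 : ¬(q : ℤ) ∣ a := fun h => by simpa using va.2 h
        have h2 : ¬(q : ℤ) ∣ b := fun h => by simpa using vb.2 h
        have h3 : ¬(q : ℤ) ∣ c := fun h => h2 ((hpar.2 h1).2 h)
        have g1 : IsSquare (a : ZMod q) := loc_unit hq hs hdz (dvd_mul_right _ _) E12 E13 pr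
          (by rw [dvd_neg]; exact k16) h1 h2 h3
        have g2 : IsSquare (b : ZMod q) := loc_unit (x1 := b) (x2 := a) (x3 := c) (s := s) hq (k2 := 16) (k3 := 25)
          (by rw [← hs]; ring) hdz (dvd_mul_right _ _)
          (by linear_combination -E12) (by linear_combination E13 - E12)
          (fun h => pr ⟨h.1, h.2.2.1, h.2.1, h.2.2.2⟩) k16 h2 h1 h3
        have ea' : a = α := by rw [ea]; simp [cf]
        have eb' : b = β := by rw [eb]; simp [cf]
        have := one_of_sq g1 (by rw [ea']; exact lA)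
        have := one_of_sq g2 (by rw [eb']; exact lB)
        subst A B
        rfl
      · -- `(0, 1)`: `q` divides `b` and `c`
        have ea' : a = α := by rw [ea]; simp [cf]
        have eb' : b = q * β := by rw [eb]; simp [cf, mul_comm]
        have ec' : c = q * γ := by rw [ec]; simp [cf, mul_comm]
        have h1 : ¬(q : ℤ) ∣ a := fun h => by simpa using va.2 h
        rw [eb'] at sB E12 hs
        rw [ec'] at sC E13 hs
        obtain ⟨g1, g2, -⟩ := loc_two hq hs sB sC hdz h1 E12 E13 pr (by rw [dvd_neg]; exact k16) k9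
        have h2 := one_of_sq (b := (A ^^ m)) g1 (by
          rw [ea', legendreSym.mul, legendreSym.mul, lA, show (-16 : ℤ) = (-1) * 16 by norm_num, legendreSym.mul, l0, l16, l9,
            mul_one, mul_one, sg_mul])
        have h3 := one_of_sq (b := (B ^^ ((F ^^ T) ^^ m))) g2 (by
          rw [legendreSym.mul, legendreSym.mul, legendreSym.mul, lB, lf, lp,
            show (-16 : ℤ) = (-1) * 16 by norm_num, legendreSym.mul, l0, l16, mul_one, sg_mul, sg_mul, sg_mul])
        unfold lq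
        simp only [h2, h3]
        rfl
      · -- `(1, 0)`: `q` divides `a` and `c`
        have ea' : a = q * α := by rw [ea]; simp [cf, mul_comm]
        have eb' : b = β := by rw [eb]; simp [cf]
        have ec' : c = q * γ := by rw [ec]; simp [cf, mul_comm]
        have h1 : ¬(q : ℤ) ∣ b := fun h => by simpa using vb.2 h
        rw [ea'] at sA E12 E13 hs
        rw [ec'] at sC E13 hs
        obtain ⟨g1, g2, -⟩ := loc_two (x1 := b) (y2 := α) (y3 := γ) (s := s) (t1 := v) (t2 := u) (t3 := w)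
          (z := z) (k2 := 16) (k3 := 25) hq (by rw [← hs]; ring) sA sC hdz h1
          (by linear_combination -E12) (by linear_combination E13 - E12)
          (fun h => pr ⟨h.1, h.2.2.1, h.2.1, h.2.2.2⟩) k16 k25
        have h2 := one_of_sq (b := B) g1 (by
          rw [eb', legendreSym.mul, legendreSym.mul, lB, l16, l25, mul_one, mul_one])
        have h3 := one_of_sq (b := (A ^^ (F ^^ T))) g2 (by
          rw [legendreSym.mul, legendreSym.mul, legendreSym.mul, lA, lf, lp, l16, mul_one, sg_mul, sg_mul])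
        unfold lq
        simp only [h2, h3]
        rfl
      · -- `(1, 1)`: `q` divides `a` and `b`
        have ea' : a = q * α := by rw [ea]; simp [cf, mul_comm]
        have eb' : b = q * β := by rw [eb]; simp [cf, mul_comm]
        have h1 : ¬(q : ℤ) ∣ c := by
          rcases hpar.1 (va.1 rfl) with h | h
          · exact h.2
          · exact absurd (vb.1 rfl) h.1
        rw [ea'] at sA E12 E13 hs
        rw [eb'] at sB E12 hs
        obtain ⟨-, g1, g2⟩ := loc_two (x1 := c) (y2 := α) (y3 := β) (s := s) (t1 := w) (t2 := u) (t3 := v)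
          (z := z) (k2 := -9) (k3 := -25) hq (by rw [← hs]; ring) sA sB hdz h1
          (by linear_combination -E13) (by linear_combination E12 - E13)
          (fun h => pr ⟨h.1, h.2.2.1, h.2.2.2, h.2.1⟩) (by rw [dvd_neg]; exact k9) (by rw [dvd_neg]; exact k25)
        have h2 := one_of_sq (b := (A ^^ ((F ^^ T) ^^ m))) g1 (by
          rw [legendreSym.mul, legendreSym.mul, legendreSym.mul, lA, lf, lp,
            show (-9 : ℤ) = (-1) * 9 by norm_num, legendreSym.mul, l0, l9, mul_one, sg_mul, sg_mul, sg_mul])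
        have h3 := one_of_sq (b := (B ^^ ((F ^^ T) ^^ m))) g2 (by
          rw [legendreSym.mul, legendreSym.mul, legendreSym.mul, lB, lf, lp,
            show (-25 : ℤ) = (-1) * 25 by norm_num, legendreSym.mul, l0, l25, mul_one, sg_mul, sg_mul, sg_mul])
        unfold lq
        simp only [h2, h3]
        rfl
    rw [key]
    simp
  have := chk_spec H.tab na nb ca cb cq o9 o32 o25
  obtain ⟨hi, ⟨h1, h2, h3, h4⟩, ⟨h5, h6, h7, h8⟩⟩ := this
  rw [ea, eb, ec, hi, h1, h2, h3, h4, h5, h6, h7, h8]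
  exact ⟨by simp [vl, cf], by simp [vl, cf], by simp [vl, cf]⟩

end Pool.Agent.V7H37.XG
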