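import Mathlib
import Pool.Agent.V7H37.XG.Sqs

/-! The square classes of a rational point on a positive twist. -/

set_option autoImplicit false

namespace Pool.Agent.V7H37.XG

open Pool.Agent.V7H37.XE Pool.Agent.V7H16.XF

lemma quad_supp' {a b c s u v w z d : ℤ} (Q : Quad (-16 * d) (9 * d) a b c s u v w z)
    {l : ℕ} (hl : l.Prime) : (((l : ℤ) ∣ a ∧ (l : ℤ) ∣ b) → (l : ℤ) ∣ 16 * d) ∧
      (((l : ℤ) ∣ a ∧ (l : ℤ) ∣ c) → (l : ℤ) ∣ 9 * d) ∧
      (((l : ℤ) ∣ b ∧ (l : ℤ) ∣ c) → (l : ℤ) ∣ 25 * d) := by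
  have hp := par Q.ha Q.hb Q.hc Q.hs hl
  have pr := Q.pr l hl
  refine ⟨?_, ?_, ?_⟩
  · rintro ⟨h1, h2⟩
    have h3 : ¬(l : ℤ) ∣ c := by
      rcases hp.1 h1 with h | h
      · exact h.2
      · exact absurd h2 h.1
    have := supp hl Q.ha Q.hb Q.e12 Q.e13 h1 h2 h3 pr
    rw [neg_mul, dvd_neg] at this
    exact this
  · rintro ⟨h1, h2⟩
    have h3 : ¬(l : ℤ) ∣ b := by
      rcases hp.1 h1 with h | h
      · exact absurd h2 h.2
      · exact h.1
    exact supp hl Q.ha Q.hc Q.e13 Q.e12 h1 h2 h3 (fun h => pr ⟨h.1, h.2.1, h.2.2.2, h.2.2.1⟩)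
  · rintro ⟨h1, h2⟩
    have h3 : ¬(l : ℤ) ∣ a := by
      intro h3
      rcases hp.1 h3 with h | h
      · exact h.2 h2
      · exact h.1 h1
    exact supp (k := 25 * d) (k' := 16 * d) (u := v) (v := w) (w := u) (z := z) hl Q.hb Q.hc
      (by linear_combination Q.e13 - Q.e12)
      (by linear_combination -Q.e12) h1 h2 h3 (fun h => pr ⟨h.1, h.2.2.2, h.2.1, h.2.2.1⟩)

/-- the integers attached to a rational point -/
theorem pre {d p : ℕ} (hsf : Squarefree d) (hp : p.Prime) {x y : ℚ} (hy : y ≠ 0)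
    (h : y ^ 2 = x * (x + (-16 * d : ℤ)) * (x + (9 * d : ℤ)))
    (v1 : Even (padicValRat p x)) (v2 : Even (padicValRat p (x + (-16 * d : ℤ)))) :
    ∃ a b c s u v w z : ℤ, Quad (-16 * d) (9 * d) a b c s u v w z ∧ x = a * ((u : ℚ) / z) ^ 2 ∧
      x + (-16 * d : ℤ) = b * ((v : ℚ) / z) ^ 2 ∧ x + (9 * d : ℤ) = c * ((w : ℚ) / z) ^ 2 ∧
      ¬(p : ℤ) ∣ a ∧ ¬(p : ℤ) ∣ b ∧ ¬(p : ℤ) ∣ c ∧ 0 < c ∧ 0 < a * b ∧
      (∀ l : ℕ, l.Prime → ((l : ℤ) ∣ a ∨ (l : ℤ) ∣ b ∨ (l : ℤ) ∣ c) → l ∣ 30 * d) := by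
  have hp0 : x * (x + (-16 * d : ℤ)) * (x + (9 * d : ℤ)) ≠ 0 := by
    rw [← h]
    exact pow_ne_zero 2 hy
  have n1 : x ≠ 0 := fun h0 => hp0 (by rw [h0]; ring)
  have n2 : x + (-16 * d : ℤ) ≠ 0 := fun h0 => hp0 (by rw [h0]; ring)
  have n3 : x + (9 * d : ℤ) ≠ 0 := fun h0 => hp0 (by rw [h0]; ring)
  obtain ⟨a, b, c, s, u, v, w, z, QQ, ea, eb, ec⟩ := exists_quad _ _ x y hy h
  have hz : (z : ℚ) ≠ 0 := by exact_mod_cast QQ.z0
  have hd0 : 0 < d := Nat.pos_of_ne_zero hsf.ne_zero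
  have hdq : (0 : ℚ) < d := by exact_mod_cast hd0
  have hur : (u : ℚ) / z ≠ 0 := fun h0 => n1 (by rw [ea, h0]; ring)
  have hvr : (v : ℚ) / z ≠ 0 := fun h0 => n2 (by rw [eb, h0]; ring)
  have hwr : (w : ℚ) / z ≠ 0 := fun h0 => n3 (by rw [ec, h0]; ring)
  have pa : ¬(p : ℤ) ∣ a := even_val hp QQ.ha hur (by rw [← ea]; exact v1)
  have pb : ¬(p : ℤ) ∣ b := even_val hp QQ.hb hvr (by rw [← eb]; exact v2)
  have pc : ¬(p : ℤ) ∣ c := fun h => pb (((par QQ.ha QQ.hb QQ.hc QQ.hs hp).2 pa).2 h)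
  -- signs
  have hypos : 0 < x * (x + (-16 * d : ℤ)) * (x + (9 * d : ℤ)) := by
    rw [← h]; positivity
  have x3 : 0 < x + (9 * d : ℤ) := by
    by_contra h3
    push Not at h3
    have h1 : x < 0 := by push_cast at h3; linarith
    have h2 : x + (-16 * d : ℤ) < 0 := by push_cast; linarith
    have h4 : 0 < x * (x + (-16 * d : ℤ)) := mul_pos_of_neg_of_neg h1 h2
    exact absurd hypos (not_lt.2 (mul_nonpos_of_nonneg_of_nonpos h4.le h3))
  have x12 : 0 < x * (x + (-16 * d : ℤ)) := (mul_pos_iff_of_pos_right x3).1 hypos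
  have hc0 : 0 < c := by
    rw [ec] at x3
    have := (mul_pos_iff_of_pos_right (by positivity : (0 : ℚ) < (w / z) ^ 2)).1 x3
    exact_mod_cast this
  have hab0 : 0 < a * b := by
    rw [ea] at x12
    have e : (a : ℚ) * (u / z) ^ 2 * (a * (u / z) ^ 2 + (-16 * d : ℤ)) =
        ((a : ℚ) * b) * ((u / z) * (v / z)) ^ 2 := by
      rw [← ea, eb]
      conv_lhs => rw [ea]
      ring
    rw [e] at x12
    have := (mul_pos_iff_of_pos_right (by positivity :
      (0 : ℚ) < ((u : ℚ) / z * (v / z)) ^ 2)).1 x12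
    exact_mod_cast this
  refine ⟨a, b, c, s, u, v, w, z, QQ, ea, eb, ec, pa, pb, pc, hc0, hab0, ?_⟩
  intro l hl hh
  have hpar := par QQ.ha QQ.hb QQ.hc QQ.hs hl
  obtain ⟨q1, q2, q3⟩ := quad_supp' QQ hl
  have fin : ∀ k : ℕ, (∀ r : ℕ, r.Prime → r ∣ k → r ∣ 30) → (l : ℤ) ∣ (k : ℤ) * d → l ∣ 30 * d := by
    intro k hk h1
    have h2 : l ∣ k * d := by exact_mod_cast h1
    rcases hl.dvd_mul.1 h2 with h3 | h3
    · exact (hk l hl h3).mul_right _
    · exact h3.mul_left _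
  have f9 := fin 9 (fun r hr h1 => by
    have : r ∣ 3 := hr.dvd_of_dvd_pow (show r ∣ 3 ^ 2 by simpa using h1)
    exact this.trans (by norm_num))
  have f16 := fin 16 (fun r hr h1 => by
    have : r ∣ 2 := hr.dvd_of_dvd_pow (show r ∣ 2 ^ 4 by simpa using h1)
    exact this.trans (by norm_num))
  have f25 := fin 25 (fun r hr h1 => by
    have : r ∣ 5 := hr.dvd_of_dvd_pow (show r ∣ 5 ^ 2 by simpa using h1)
    exact this.trans (by norm_num))
  push_cast at f9 f16 f25
  by_cases ha : (l : ℤ) ∣ a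
  · rcases hpar.1 ha with h1 | h1
    · exact f16 (q1 ⟨ha, h1.1⟩)
    · exact f9 (q2 ⟨ha, h1.2⟩)
  · have h1 := hpar.2 ha
    rcases hh with h2 | h2 | h2
    · exact absurd h2 ha
    · exact f25 (q3 ⟨h2, h1.1 h2⟩)
    · exact f25 (q3 ⟨h1.2 h2, h2⟩)

/-- the classes of the points of the twist by `d` are those of the points of order two -/
structure Tw (d p : ℕ) : Prop where
  sf : Squarefree d
  pp : p.Prime
  pd : p ∣ d
  sq : ∀ {x y : ℚ}, y ≠ 0 → y ^ 2 = x * (x + (-16 * d : ℤ)) * (x + (9 * d : ℤ)) →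
    Even (padicValRat p x) → Even (padicValRat p (x + (-16 * d : ℤ))) →
    ∃ r1 r2 r3 : ℚ, x = r1 ^ 2 ∧ x + (-16 * d : ℤ) = r2 ^ 2 ∧ x + (9 * d : ℤ) = r3 ^ 2

theorem Dat.tw {f p q : ℕ} {t : Bool} (H : Dat f p q t) : Tw (f * (p * q)) p where
  sf := H.sf
  pp := H.pp
  pd := ⟨f * q, by ring⟩
  sq := by
    intro x y hy h v1 v2
    obtain ⟨a, b, c, s, u, v, w, z, QQ, ea, eb, ec, pa, pb, pc, hc0, hab0, hsupp⟩ :=
      pre H.sf H.pp hy h v1 v2
    have sup : ∀ {n : ℤ}, (∀ l : ℕ, l.Prime → (l : ℤ) ∣ n → l ∣ 30 * (f * (p * q))) → ¬(p : ℤ) ∣ n →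
        ∀ l : ℕ, l.Prime → (l : ℤ) ∣ n → l = 2 ∨ l = 3 ∨ l = 5 ∨ l = q := by
      intro n hn hpn l hl hln
      have h30 : ∀ r : ℕ, r.Prime → r ∣ 30 → r = 2 ∨ r = 3 ∨ r = 5 ∨ r = q := by
        intro r hr h
        rcases prime30 hr h with h1 | h1 | h1
        · exact Or.inl h1
        · exact Or.inr (Or.inl h1)
        · exact Or.inr (Or.inr (Or.inl h1))
      rcases hl.dvd_mul.1 (hn l hl hln) with h1 | h1
      · exact h30 l hl h1
      · rcases hl.dvd_mul.1 h1 with h2 | h2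
        · exact h30 l hl ((h2.trans H.f6).trans (by norm_num))
        · rcases hl.dvd_mul.1 h2 with h3 | h3
          · have := (Nat.prime_dvd_prime_iff_eq hl H.pp).1 h3
            subst this
            exact absurd hln hpn
          · rcases H.q0 with rfl | ⟨hq, -⟩
            · exact absurd (Nat.dvd_one.1 h3) hl.one_lt.ne'
            · exact Or.inr (Or.inr (Or.inr ((Nat.prime_dvd_prime_iff_eq hl hq).1 h3)))
    have hdz : Squarefree ((f * (p * q) : ℕ) : ℤ) := Int.squarefree_natCast.2 H.sf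
    have hpd : (p : ℤ) ∣ ((f * (p * q) : ℕ) : ℤ) := by exact_mod_cast (⟨f * q, by ring⟩ : p ∣ f * (p * q))
    have np16 : ¬(p : ℤ) ∣ 16 := by
      intro h9
      have h1 : p ∣ 16 := by exact_mod_cast h9
      have h2 : p ∣ 2 := H.pp.dvd_of_dvd_pow (show p ∣ 2 ^ 4 by simpa using h1)
      have := Nat.le_of_dvd (by norm_num) h2
      have := H.p5
      omega
    have hs' : b * a * c = s ^ 2 := by rw [← QQ.hs]; ring
    have e12 := QQ.e12
    have e13 := QQ.e13
    have sa : IsSquare (a : ZMod p) := loc_unit H.pp (k2 := -16) (k3 := 9) QQ.hs hdz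
      hpd e12 e13 (QQ.pr p H.pp) (by rw [dvd_neg]; exact np16) pa pb pc
    have sb : IsSquare (b : ZMod p) := loc_unit H.pp (k2 := 16) (k3 := 25) hs' hdz
      hpd (t1 := v) (t2 := u) (t3 := w) (z := z) (by linear_combination -e12)
      (by linear_combination e13 - e12) (fun h => QQ.pr p H.pp ⟨h.1, h.2.2.1, h.2.1, h.2.2.2⟩) np16 pb pa pc
    obtain ⟨ha1, hb1, hc1⟩ := final H QQ hc0 hab0 (sup (fun l hl h => hsupp l hl (Or.inl h)) pa)
      (sup (fun l hl h => hsupp l hl (Or.inr (Or.inl h))) pb) sa sb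
    refine ⟨u / z, v / z, w / z, ?_, ?_, ?_⟩
    · rw [ea, ha1]; push_cast; ring
    · rw [eb, hb1]; push_cast; ring
    · rw [ec, hc1]; push_cast; ring

/-- the twist by `6` -/
theorem tw6 : Tw 6 3 where
  sf := by
    rw [show 6 = 2 * 3 by norm_num, Nat.squarefree_mul (by norm_num)]
    exact ⟨Nat.prime_two.prime.irreducible.squarefree, Nat.prime_three.prime.irreducible.squarefree⟩
  pp := Nat.prime_three
  pd := by norm_num
  sq := by
    intro x y hy h v1 v2
    have sf6 : Squarefree 6 := by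
      rw [show 6 = 2 * 3 by norm_num, Nat.squarefree_mul (by norm_num)]
      exact ⟨Nat.prime_two.prime.irreducible.squarefree, Nat.prime_three.prime.irreducible.squarefree⟩
    obtain ⟨a, b, c, s, u, v, w, z, QQ, ea, eb, ec, pa, pb, pc, hc0, hab0, hsupp⟩ :=
      pre sf6 Nat.prime_three hy h v1 v2
    have sup : ∀ {n : ℤ}, (∀ l : ℕ, l.Prime → (l : ℤ) ∣ n → l ∣ 30 * 6) →
        ∀ l : ℕ, l.Prime → (l : ℤ) ∣ n → l = 2 ∨ l = 3 ∨ l = 5 := by
      intro n hn l hl hln
      rcases hl.dvd_mul.1 (hn l hl hln) with h1 | h1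
      · exact prime30 hl h1
      · exact prime30 hl (h1.trans (by norm_num))
    have ga := sup (fun l hl h => hsupp l hl (Or.inl h))
    have gb := sup (fun l hl h => hsupp l hl (Or.inr (Or.inl h)))
    have gc := sup (fun l hl h => hsupp l hl (Or.inr (Or.inr h)))
    have fa := small_shape QQ.ha ga
    have fb := small_shape QQ.hb gb
    have fc := small_shape QQ.hc gc
    have hsgn : decide (b < 0) = decide (a < 0) := by
      rw [decide_eq_decide]
      constructor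
      · intro h
        by_contra h1
        push Not at h1
        have := mul_nonpos_of_nonneg_of_nonpos h1 h.le
        omega
      · intro h
        by_contra h1
        push Not at h1
        have := mul_nonpos_of_nonpos_of_nonneg h.le h1
        omega
    have hsc : decide (c < 0) = false := by
      rw [decide_eq_false_iff_not]; omega
    have hx : ∀ l : ℕ, l.Prime → decide ((l : ℤ) ∣ c) = (decide ((l : ℤ) ∣ a) ^^ decide ((l : ℤ) ∣ b)) := by
      intro l hl
      have hp := par QQ.ha QQ.hb QQ.hc QQ.hs hl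
      by_cases h1 : (l : ℤ) ∣ a
      · rcases hp.1 h1 with ⟨h2, h3⟩ | ⟨h2, h3⟩
        · simp [h1, h2, h3]
        · simp [h1, h2, h3]
      · have h2 := hp.2 h1
        by_cases h3 : (l : ℤ) ∣ b
        · simp [h1, h3, h2.1 h3]
        · have h4 : ¬(l : ℤ) ∣ c := fun h => h3 (h2.2 h)
          simp [h1, h3, h4]
    have x2 := hx 2 Nat.prime_two
    have x5 := hx 5 Nat.prime_five
    push_cast at x2 x5
    have a3 : decide ((3 : ℤ) ∣ a) = false := by
      rw [decide_eq_false_iff_not]; exact_mod_cast pa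
    have b3 : decide ((3 : ℤ) ∣ b) = false := by
      rw [decide_eq_false_iff_not]; exact_mod_cast pb
    have c3 : decide ((3 : ℤ) ∣ c) = false := by
      rw [decide_eq_false_iff_not]; exact_mod_cast pc
    rw [a3] at fa
    rw [hsgn, b3] at fb
    rw [hsc, x2, c3, x5] at fc
    generalize decide (a < 0) = i at fa fb
    generalize decide ((2 : ℤ) ∣ a) = a2 at fa fc
    generalize decide ((5 : ℤ) ∣ a) = a5 at fa fc
    generalize decide ((2 : ℤ) ∣ b) = b2 at fb fc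
    generalize decide ((5 : ℤ) ∣ b) = b5 at fb fc
    have e12 : a * u ^ 2 + -16 * (6 * 1) * z ^ 2 = b * v ^ 2 := by
      have := QQ.e12
      push_cast at this ⊢
      linear_combination this
    have e13 : a * u ^ 2 + 9 * (6 * 1) * z ^ 2 = c * w ^ 2 := by
      have := QQ.e13
      push_cast at this ⊢
      linear_combination this
    have hm : ∀ {S : List ℤ} {M l : ℤ}, Rep S M l 1 1 → ∀ n m : ℤ, n = m → Rep S M l n m := by
      intro S M l h n m hnm
      have := h.mul n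
      rw [hnm, mul_one] at this
      rw [hnm]
      exact this
    have o9 := okc_of (hm rep_one9 a _ fa) (hm rep_one9 b _ fb) (hm rep_one9 c _ fc) rep_one9 e12 e13
      (by have := QQ.pr 3 Nat.prime_three; exact_mod_cast this)
    have o32 := okc_of (hm rep_one32 a _ fa) (hm rep_one32 b _ fb) (hm rep_one32 c _ fc) rep_one32 e12 e13
      (by have := QQ.pr 2 Nat.prime_two; exact_mod_cast this)
    have o25 := okc_of (hm rep_one25 a _ fa) (hm rep_one25 b _ fb) (hm rep_one25 c _ fc) rep_one25 e12 e13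
      (by have := QQ.pr 5 Nat.prime_five; exact_mod_cast this)
    rw [mul_one] at o9 o32 o25
    have hc := chk6_true
    unfold chk6 at hc
    have h1 := List.all_eq_true.1 hc i (mem_bl' i)
    have h2 := List.all_eq_true.1 h1 a2 (mem_bl' a2)
    have h3 := List.all_eq_true.1 h2 a5 (mem_bl' a5)
    have h4 := List.all_eq_true.1 h3 b2 (mem_bl' b2)
    have h5 := List.all_eq_true.1 h4 b5 (mem_bl' b5)
    rw [o9, o32, o25] at h5
    have : i = false ∧ a2 = false ∧ a5 = false ∧ b2 = false ∧ b5 = false := by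
      clear hc h1 h2 h3 h4 o9 o32 o25 fa fb fc
      revert h5
      cases i <;> cases a2 <;> cases a5 <;> cases b2 <;> cases b5 <;> decide
    obtain ⟨rfl, rfl, rfl, rfl, rfl⟩ := this
    have ha1 : a = 1 := by rw [fa]; decide
    have hb1 : b = 1 := by rw [fb]; decide
    have hc1 : c = 1 := by rw [fc]; decide
    refine ⟨u / z, v / z, w / z, ?_, ?_, ?_⟩
    · rw [ea, ha1]; push_cast; ring
    · rw [eb, hb1]; push_cast; ring
    · rw [ec, hc1]; push_cast; ring

end Pool.Agent.V7H37.XG
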