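import Mathlib
import Pool.Agent.V7H37.XG.Rank
import Pool.Agent.V7H16.XF.OverK

/-! From `ℚ` to a field generated by square roots. -/

set_option autoImplicit false

open WeierstrassCurve

namespace Pool.Agent.V7H37.XG

open Pool.Agent.H437R2.Man.MW Pool.Agent.V7H16.XF

/-- finitely many rational solutions of `D y² = x (x + 9) (x - 16)` -/
def TF (D : ℚ) : Prop := {P : ℚ × ℚ | D * P.2 ^ 2 = P.1 * (P.1 + 9) * (P.1 - 16)}.Finite

lemma TF_of_pt {d : ℕ} (hd : 0 < d) (h : Finite (Pt (0 : ℚ) ((-16 * d : ℤ) : ℚ) ((9 * d : ℤ) : ℚ))) :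
    TF d := by
  classical
  have hdq : (0 : ℚ) < d := by exact_mod_cast hd
  have h12 : (0 : ℚ) ≠ ((-16 * d : ℤ) : ℚ) := by push_cast; intro h; linarith
  have h13 : (0 : ℚ) ≠ ((9 * d : ℤ) : ℚ) := by push_cast; intro h; linarith
  have h23 : ((-16 * d : ℤ) : ℚ) ≠ ((9 * d : ℤ) : ℚ) := by push_cast; intro h; linarith
  have key : ∀ P : {P : ℚ × ℚ | (d : ℚ) * P.2 ^ 2 = P.1 * (P.1 + 9) * (P.1 - 16)},
      ((d : ℚ) ^ 2 * P.1.2) ^ 2 = (d * P.1.1 + 0) * (d * P.1.1 + ((-16 * d : ℤ) : ℚ)) *
        (d * P.1.1 + ((9 * d : ℤ) : ℚ)) := by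
    rintro ⟨⟨x, y⟩, hP⟩
    have hP' : (d : ℚ) * y ^ 2 = x * (x + 9) * (x - 16) := hP
    push_cast
    linear_combination (d : ℚ) ^ 3 * hP'
  have hinj : Function.Injective (fun P : {P : ℚ × ℚ | (d : ℚ) * P.2 ^ 2 = P.1 * (P.1 + 9) * (P.1 - 16)} =>
      (Affine.Point.some _ _ (crv_nonsing h12 h13 h23 (key P)) :
        Pt (0 : ℚ) ((-16 * d : ℤ) : ℚ) ((9 * d : ℤ) : ℚ))) := by
    rintro ⟨⟨x, y⟩, hP⟩ ⟨⟨x', y'⟩, hP'⟩ hh
    simp only [Affine.Point.some.injEq] at hh
    have e1 : x = x' := mul_left_cancel₀ hdq.ne' hh.1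
    have e2 : y = y' := mul_left_cancel₀ (pow_ne_zero 2 hdq.ne') hh.2
    subst e1 e2
    rfl
  have := Finite.of_injective _ hinj
  exact Set.toFinite _

lemma TF.scale {D m : ℚ} (h : TF D) (hm : m ≠ 0) : TF (D * m ^ 2) := by
  have hsub : {P : ℚ × ℚ | D * m ^ 2 * P.2 ^ 2 = P.1 * (P.1 + 9) * (P.1 - 16)} ⊆
      (fun P : ℚ × ℚ => (P.1, P.2 / m)) '' {P : ℚ × ℚ | D * P.2 ^ 2 = P.1 * (P.1 + 9) * (P.1 - 16)} := by
    rintro ⟨x, y⟩ hP
    have hP' : D * m ^ 2 * y ^ 2 = x * (x + 9) * (x - 16) := hP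
    refine ⟨(x, m * y), ?_, ?_⟩
    · show D * (m * y) ^ 2 = x * (x + 9) * (x - 16)
      rw [← hP']; ring
    · simp only [Prod.mk.injEq, true_and]
      field_simp
  exact (h.image _).subset hsub

section

variable {F : Type} [Field F] [NumberField F]

/-- an element with signs is a product of the square roots up to a rational factor -/
lemma kummer (hfix : ∀ x : F, (∀ σ : F ≃ₐ[ℚ] F, σ x = x) → ∃ r : ℚ, algebraMap ℚ F r = x) (l : List F) :
    (∀ s ∈ l, s ≠ 0 ∧ ∀ σ : F ≃ₐ[ℚ] F, σ s = s ∨ σ s = -s) → ∀ y : F, y ≠ 0 →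
    (∀ σ : F ≃ₐ[ℚ] F, σ y = y ∨ σ y = -y) →
    (∀ σ : F ≃ₐ[ℚ] F, (∀ s ∈ l, σ s = s) → σ y = y) →
    ∃ l' : List F, l'.Sublist l ∧ ∃ r : ℚ, algebraMap ℚ F r = y * l'.prod := by
  induction l with
  | nil =>
    intro _ y _ _ h
    obtain ⟨r, hr⟩ := hfix y (fun σ => h σ (by simp))
    exact ⟨[], List.Sublist.refl _, r, by simpa using hr⟩
  | cons s l ih =>
    intro hl y hy0 hy h
    have hl' : ∀ s ∈ l, s ≠ 0 ∧ ∀ σ : F ≃ₐ[ℚ] F, σ s = s ∨ σ s = -s :=
      fun s' hs' => hl s' (List.mem_cons_of_mem _ hs')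
    by_cases hP : ∀ σ : F ≃ₐ[ℚ] F, (∀ s ∈ l, σ s = s) → σ y = y
    · obtain ⟨l', h1, h2⟩ := ih hl' y hy0 hy hP
      exact ⟨l', h1.cons _, h2⟩
    · push Not at hP
      obtain ⟨τ, hτ, hτy⟩ := hP
      have hτy' : τ y = -y := (hy τ).resolve_left hτy
      have hs := hl s List.mem_cons_self
      have hτs : τ s = -s := by
        refine (hs.2 τ).resolve_left fun hh => hτy (h τ ?_)
        intro s' hs'
        rcases List.mem_cons.1 hs' with rfl | hs'
        · exact hh
        · exact hτ s' hs'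
      have hyy : y ≠ -y := fun hh => hτy (hτy'.trans hh.symm)
      obtain ⟨l', h1, r, h2⟩ := ih hl' (y * s) (mul_ne_zero hy0 hs.1) (by
        intro σ
        rw [map_mul]
        rcases hy σ with e | e <;> rcases hs.2 σ with e' | e' <;> rw [e, e']
        · exact Or.inl rfl
        · right; ring
        · right; ring
        · left; ring) (by
        intro ρ hρ
        rw [map_mul]
        rcases hs.2 ρ with e | e
        · have : ρ y = y := h ρ (by
            intro s' hs'
            rcases List.mem_cons.1 hs' with rfl | hs'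
            · exact e
            · exact hρ s' hs')
          rw [e, this]
        · have h3 : (τ * ρ) y = y := h (τ * ρ) (by
            intro s' hs'
            rw [AlgEquiv.mul_apply]
            rcases List.mem_cons.1 hs' with rfl | hs'
            · rw [e, map_neg, hτs, neg_neg]
            · rw [hρ s' hs', hτ s' hs'])
          rw [AlgEquiv.mul_apply] at h3
          rcases hy ρ with e' | e'
          · rw [e', hτy'] at h3
            exact absurd h3.symm hyy
          · rw [e, e']; ring)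
      exact ⟨s :: l', h1.cons_cons _, r, by rw [h2, List.prod_cons]; ring⟩

theorem multi (hfix : ∀ x : F, (∀ σ : F ≃ₐ[ℚ] F, σ x = x) → ∃ r : ℚ, algebraMap ℚ F r = x) (l : List F)
    (hl0 : ∀ s ∈ l, s ≠ 0) (d : F → ℚ) (hd : ∀ s ∈ l, s ^ 2 = algebraMap ℚ F (d s))
    (hgen : ∀ σ : F ≃ₐ[ℚ] F, (∀ s ∈ l, σ s = s) → σ = 1)
    (hT : ∀ l' : List F, l'.Sublist l → TF (l'.map d).prod) [DecidableEq F] :
    Finite ((crv (0 : ℚ) 9 (-16)).baseChange F).toAffine.Point := by
  classical
  have hl : ∀ s ∈ l, s ≠ 0 ∧ ∀ σ : F ≃ₐ[ℚ] F, σ s = s ∨ σ s = -s := by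
    intro s hs
    refine ⟨hl0 s hs, fun σ => ?_⟩
    have h3 : (σ s) ^ 2 = s ^ 2 := by
      rw [← map_pow, hd s hs, AlgEquiv.commutes]
    exact sq_eq_sq_iff_eq_or_eq_neg.mp h3
  have hcomm : ∀ σ τ : F ≃ₐ[ℚ] F, σ * τ = τ * σ := by
    intro σ τ
    have h1 : (τ * σ)⁻¹ * (σ * τ) = 1 := by
      apply hgen
      intro s hs
      have h2 : (σ * τ) s = (τ * σ) s := by
        rw [AlgEquiv.mul_apply, AlgEquiv.mul_apply]
        rcases (hl s hs).2 σ with e | e <;> rcases (hl s hs).2 τ with e' | e' <;>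
          simp only [e, e', map_neg]
      rw [AlgEquiv.mul_apply, h2]
      exact (τ * σ).symm_apply_apply s
    exact (inv_mul_eq_one.1 h1).symm
  have hprodsq : ∀ l' : List F, l'.Sublist l → (l'.prod) ^ 2 = algebraMap ℚ F (l'.map d).prod := by
    intro l' hl'
    have hmem : ∀ s ∈ l', s ∈ l := fun s hs => hl'.subset hs
    clear hl'
    induction l' with
    | nil => simp
    | cons s l' ih =>
      rw [List.prod_cons, mul_pow, hd s (hmem s List.mem_cons_self),
        ih (fun s' hs' => hmem s' (List.mem_cons_of_mem _ hs')), List.map_cons, List.prod_cons, map_mul]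
  obtain ⟨W, hW⟩ : ∃ W, W = crv (0 : ℚ) 9 (-16) := ⟨_, rfl⟩
  rw [← hW]
  have hWK : W.baseChange F = crv (0 : F) 9 (-16) := by
    rw [hW, base_crv]
    simp
  have hΔ : (W.baseChange F).Δ ≠ 0 := by
    rw [hWK, crv_Δ]
    norm_num
  obtain ⟨φ, hφ⟩ : ∃ φ : (F ≃ₐ[ℚ] F) → ((W.baseChange F).toAffine.Point →+ (W.baseChange F).toAffine.Point),
      ∀ σ, φ σ = Affine.Point.map (W' := W.toAffine) (σ : F →ₐ[ℚ] F) := ⟨_, fun _ => rfl⟩
  have hφs : ∀ (σ : F ≃ₐ[ℚ] F) {x y : F} (h : (W.baseChange F).toAffine.Nonsingular x y),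
      ∃ h', φ σ (Affine.Point.some x y h) = Affine.Point.some (σ x) (σ y) h' := by
    intro σ x y h
    rw [hφ]
    exact ⟨_, Affine.Point.map_some (σ : F →ₐ[ℚ] F) h⟩
  have hφc : ∀ σ τ R, φ σ (φ τ R) = φ τ (φ σ R) := by
    intro σ τ R
    match R with
    | 0 => simp only [map_zero]
    | .some x y h =>
      obtain ⟨h1, e1⟩ := hφs τ h
      obtain ⟨h2, e2⟩ := hφs σ h
      obtain ⟨h3, e3⟩ := hφs σ h1
      obtain ⟨h4, e4⟩ := hφs τ h2
      rw [e1, e2, e3, e4]
      simp only [Affine.Point.some.injEq]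
      have := hcomm σ τ
      exact ⟨congrArg (fun f : F ≃ₐ[ℚ] F => f x) this, congrArg (fun f : F ≃ₐ[ℚ] F => f y) this⟩
  have hφφ : ∀ σ R, φ σ (φ σ R) = R := by
    intro σ R
    have hσσ : σ * σ = 1 := by
      apply hgen
      intro s hs
      rw [AlgEquiv.mul_apply]
      rcases (hl s hs).2 σ with e | e <;> simp only [e, map_neg, neg_neg]
    match R with
    | 0 => simp only [map_zero]
    | .some x y h =>
      obtain ⟨h1, e1⟩ := hφs σ h
      obtain ⟨h3, e3⟩ := hφs σ h1
      rw [e1, e3]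
      simp only [Affine.Point.some.injEq]
      exact ⟨congrArg (fun f : F ≃ₐ[ℚ] F => f x) hσσ, congrArg (fun f : F ≃ₐ[ℚ] F => f y) hσσ⟩
  have heq : ∀ {x y : F}, (W.baseChange F).toAffine.Nonsingular x y → y ^ 2 = x * (x + 9) * (x - 16) := by
    intro x y h
    rw [hWK] at h
    have := crv_eqn.mp h.1
    linear_combination this
  -- the points with signs
  have fin : ∀ A : Set (F ≃ₐ[ℚ] F), {T : (W.baseChange F).toAffine.Point | (∀ σ ∈ A, φ σ T = T) ∧
      ∀ σ ∉ A, φ σ T = -T}.Finite := by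
    intro A
    obtain ⟨co, hco⟩ : ∃ co : (W.baseChange F).toAffine.Point → Option (F × F),
        co 0 = none ∧ ∀ x y h, co (Affine.Point.some x y h) = some (x, y) := by
      refine ⟨fun P => match P with
        | 0 => none
        | .some x y _ => some (x, y), rfl, fun _ _ _ => rfl⟩
    have hinj : Function.Injective co := by
      intro P Q hPQ
      match P, Q with
      | 0, 0 => rfl
      | 0, .some x y h => rw [hco.1, hco.2] at hPQ; exact absurd hPQ (by simp)
      | .some x y h, 0 => rw [hco.1, hco.2] at hPQ; exact absurd hPQ (by simp)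
      | .some x y h, .some x' y' h' =>
        rw [hco.2, hco.2] at hPQ
        simp only [Option.some.injEq, Prod.mk.injEq] at hPQ
        obtain ⟨rfl, rfl⟩ := hPQ
        rfl
    -- description of the coordinates
    have hdesc : ∀ {x y : F} (h : (W.baseChange F).toAffine.Nonsingular x y),
        (∀ σ ∈ A, φ σ (.some x y h) = .some x y h) → (∀ σ ∉ A, φ σ (.some x y h) = -.some x y h) →
        (∀ σ : F ≃ₐ[ℚ] F, σ x = x) ∧ (∀ σ ∈ A, σ y = y) ∧ (∀ σ ∉ A, σ y = -y) := by
      intro x y h h1 h2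
      have n : -(Affine.Point.some x y h : (W.baseChange F).toAffine.Point) =
          Affine.Point.some x (-y) (by
            have := (Affine.nonsingular_neg x y).2 h
            have e : (W.baseChange F).toAffine.negY x y = -y := by
              rw [hWK]; simp [Affine.negY, crv]
            rwa [e] at this) := by
        rw [Affine.Point.neg_some]
        simp only [Affine.Point.some.injEq, true_and]
        rw [hWK]; simp [Affine.negY, crv]
      refine ⟨fun σ => ?_, fun σ hσ => ?_, fun σ hσ => ?_⟩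
      · obtain ⟨h', e⟩ := hφs σ h
        by_cases hσ : σ ∈ A
        · have := h1 σ hσ
          rw [e] at this
          simp only [Affine.Point.some.injEq] at this
          exact this.1
        · have := h2 σ hσ
          rw [e, n] at this
          simp only [Affine.Point.some.injEq] at this
          exact this.1
      · obtain ⟨h', e⟩ := hφs σ h
        have := h1 σ hσ
        rw [e] at this
        simp only [Affine.Point.some.injEq] at this
        exact this.2
      · obtain ⟨h', e⟩ := hφs σ h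
        have := h2 σ hσ
        rw [e, n] at this
        simp only [Affine.Point.some.injEq] at this
        exact this.2
    have hfin2 : ∃ C : Set (F × F), C.Finite ∧ ∀ {x y : F} (_ : (W.baseChange F).toAffine.Nonsingular x y),
        (∀ σ : F ≃ₐ[ℚ] F, σ x = x) → (∀ σ ∈ A, σ y = y) → (∀ σ ∉ A, σ y = -y) → (x, y) ∈ C := by
      by_cases hex : ∃ y0 : F, y0 ≠ 0 ∧ (∀ σ ∈ A, σ y0 = y0) ∧ ∀ σ ∉ A, σ y0 = -y0
      · obtain ⟨y0, hy0, hA1, hA2⟩ := hex
        have hpm : ∀ σ : F ≃ₐ[ℚ] F, σ y0 = y0 ∨ σ y0 = -y0 := by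
          intro σ
          by_cases hσ : σ ∈ A
          · exact Or.inl (hA1 σ hσ)
          · exact Or.inr (hA2 σ hσ)
        obtain ⟨l', hl', r, hr⟩ := kummer hfix l hl y0 hy0 hpm (fun σ hσ => by
          rw [hgen σ hσ]; rfl)
        have hl'0 : l'.prod ≠ 0 := by
          rw [Ne, List.prod_eq_zero_iff]
          intro h0
          exact (hl 0 (hl'.subset h0)).1 rfl
        have hr0 : r ≠ 0 := by
          rintro rfl
          rw [map_zero] at hr
          exact mul_ne_zero hy0 hl'0 hr.symm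
        obtain ⟨E, hE⟩ : ∃ E : ℚ, E = (l'.map d).prod := ⟨_, rfl⟩
        have hEF := hprodsq l' hl'
        rw [← hE] at hEF
        have hE0 : E ≠ 0 := by
          rintro rfl
          rw [map_zero] at hEF
          exact pow_ne_zero 2 hl'0 hEF
        have hT' : TF (E * (r / E) ^ 2) := by
          apply TF.scale
          · rw [hE]; exact hT l' hl'
          · exact div_ne_zero hr0 hE0
        have hy0sq : y0 ^ 2 = algebraMap ℚ F (E * (r / E) ^ 2) := by
          have h1 : y0 ^ 2 * algebraMap ℚ F E = algebraMap ℚ F (r ^ 2) := by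
            rw [← hEF, map_pow, hr]; ring
          have h2 : algebraMap ℚ F E ≠ 0 := by
            rw [Ne, map_eq_zero]; exact hE0
          apply mul_right_cancel₀ h2
          rw [h1, ← map_mul]
          congr 1
          field_simp
        refine ⟨(fun P : ℚ × ℚ => (algebraMap ℚ F P.1, algebraMap ℚ F P.2 * y0)) '' _, hT'.image _, ?_⟩
        intro x y h hx hy1 hy2
        obtain ⟨x0, rfl⟩ := hfix x hx
        obtain ⟨c, hc⟩ := hfix (y / y0) (by
          intro σ
          rw [map_div₀]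
          by_cases hσ : σ ∈ A
          · rw [hy1 σ hσ, hA1 σ hσ]
          · rw [hy2 σ hσ, hA2 σ hσ, neg_div_neg_eq])
        have hyc : y = algebraMap ℚ F c * y0 := by
          rw [hc, div_mul_cancel₀ _ hy0]
        refine ⟨(x0, c), ?_, ?_⟩
        · have h3 := heq h
          rw [hyc, mul_pow, hy0sq] at h3
          apply (algebraMap ℚ F).injective
          simp only [map_mul, map_pow, map_add, map_sub, map_ofNat] at h3 ⊢
          linear_combination h3
        · simp only [hyc]
      · refine ⟨{((0 : F), (0 : F)), (-9, 0), (16, 0)}, Set.toFinite _, ?_⟩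
        intro x y h hx hy1 hy2
        have hy : y = 0 := by
          by_contra h0
          exact hex ⟨y, h0, hy1, hy2⟩
        subst hy
        have h3 := heq h
        have h4 : x * (x + 9) * (x - 16) = 0 := by rw [← h3]; ring
        rcases mul_eq_zero.1 h4 with h5 | h5
        · rcases mul_eq_zero.1 h5 with h6 | h6
          · left; rw [h6]
          · right; left
            have : x = -9 := by linear_combination h6
            rw [this]
        · right; right
          have : x = 16 := by linear_combination h5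
          rw [this]; rfl
    obtain ⟨C, hC, hC2⟩ := hfin2
    refine Set.Finite.of_finite_image (f := co) ?_ hinj.injOn
    refine ((hC.image (some : F × F → Option (F × F))).union (Set.finite_singleton none)).subset ?_
    rintro _ ⟨T, ⟨hT1, hT2⟩, rfl⟩
    match T with
    | 0 => right; exact hco.1
    | .some x y h =>
      left
      rw [hco.2]
      obtain ⟨k1, k2, k3⟩ := hdesc h hT1 hT2
      exact ⟨(x, y), hC2 h k1 k2 k3, rfl⟩
  have base : ∀ R, (∀ σ ∈ (Finset.univ : Finset (F ≃ₐ[ℚ] F)), φ σ R = R ∨ φ σ R = -R) →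
      IsOfFinAddOrder R := by
    intro R hR
    by_contra hcon
    have hinj := injective_nsmul_iff_not_isOfFinAddOrder.2 hcon
    refine Set.infinite_of_injective_forall_mem hinj (s := {T | (∀ σ ∈ {σ : F ≃ₐ[ℚ] F | φ σ R = R}, φ σ T = T) ∧
      ∀ σ ∉ {σ : F ≃ₐ[ℚ] F | φ σ R = R}, φ σ T = -T}) (fun n => ⟨fun σ hσ => ?_, fun σ hσ => ?_⟩) (fin _)
    · show φ σ (n • R) = n • R
      rw [map_nsmul, (hσ : φ σ R = R)]
    · show φ σ (n • R) = -(n • R)
      rw [map_nsmul, (hR σ (Finset.mem_univ _)).resolve_left hσ, smul_neg]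
  have down : ∀ S : Finset (F ≃ₐ[ℚ] F), ∀ R, (∀ σ ∉ S, φ σ R = R ∨ φ σ R = -R) → IsOfFinAddOrder R := by
    intro S
    induction S using Finset.induction_on with
    | empty =>
      intro R hR
      exact base R (fun σ _ => hR σ (Finset.notMem_empty σ))
    | insert a S ha ih =>
      intro R hR
      have s1 := ih (R + φ a R) (by
        intro σ hσ
        by_cases hσa : σ = a
        · subst hσa
          left
          rw [map_add, hφφ, add_comm]
        · rcases hR σ (by simp [hσa, hσ]) with e | e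
          · left; rw [map_add, hφc, e]
          · right; rw [map_add, hφc, e, map_neg]; abel)
      have s2 := ih (R - φ a R) (by
        intro σ hσ
        by_cases hσa : σ = a
        · subst hσa
          right
          rw [map_sub, hφφ]; abel
        · rcases hR σ (by simp [hσa, hσ]) with e | e
          · left; rw [map_sub, hφc, e]
          · right; rw [map_sub, hφc, e, map_neg]; abel)
      have s3 := s1.add s2
      have e3 : R + φ a R + (R - φ a R) = (2 : ℕ) • R := by rw [two_nsmul]; abel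
      rw [e3] at s3
      exact s3.of_nsmul (by norm_num)
  have tors : ∀ P : (W.baseChange F).toAffine.Point, IsOfFinAddOrder P :=
    fun P => down Finset.univ P (fun σ hσ => absurd (Finset.mem_univ σ) hσ)
  have hfg := Pool.Agent.Q286.EQ.mordell_weil F (W.baseChange F) hΔ
  exact AddCommGroup.finite_of_fg_torsion _ tors

end

end Pool.Agent.V7H37.XG
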