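import Mathlib
import Pool.Agent.V7H37.XG.Multi

/-! The fields generated by square roots, and the twists which are needed. -/

set_option autoImplicit false

open WeierstrassCurve Polynomial

namespace Pool.Agent.V7H37.XG

open Pool.Agent.H437R2.Man.MW Pool.Agent.V7H16.XF Pool.Agent.V7H37.XE

section

variable {F : Type} [Field F] [NumberField F]

lemma normal_of_gen (l : List F) (hd : ∀ s ∈ l, ∃ q : ℚ, s ^ 2 = algebraMap ℚ F q)
    (hadj : IntermediateField.adjoin ℚ {s | s ∈ l} = ⊤) : Normal ℚ F := by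
  rw [normal_iff]
  intro x
  refine ⟨Algebra.IsIntegral.isIntegral x, ?_⟩
  refine IntermediateField.splits_of_mem_adjoin ℚ F (S := {s | s ∈ l}) (fun s hs => ?_) (by rw [hadj]; trivial)
  refine ⟨Algebra.IsIntegral.isIntegral s, ?_⟩
  obtain ⟨q, hq⟩ := hd s hs
  have hdvd : minpoly ℚ s ∣ X ^ 2 - C q := by
    apply minpoly.dvd
    simp [hq]
  have h2 : (X ^ 2 - C q : ℚ[X]).map (algebraMap ℚ F) = (X - C s) * (X - C (-s)) := by
    rw [Polynomial.map_sub, Polynomial.map_pow, map_X, map_C, ← hq]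
    simp only [map_neg, map_pow]
    ring
  have h3 : (((X ^ 2 - C q : ℚ[X]).map (algebraMap ℚ F))).Splits := by
    rw [h2]
    exact (Splits.X_sub_C s).mul (Splits.X_sub_C (-s))
  refine h3.of_dvd ?_ (Polynomial.map_dvd _ hdvd)
  rw [h2]
  exact mul_ne_zero (X_sub_C_ne_zero s) (X_sub_C_ne_zero (-s))

lemma fixed_of_gen (l : List F) (hd : ∀ s ∈ l, ∃ q : ℚ, s ^ 2 = algebraMap ℚ F q)
    (hadj : IntermediateField.adjoin ℚ {s | s ∈ l} = ⊤) :
    (∀ x : F, (∀ σ : F ≃ₐ[ℚ] F, σ x = x) → ∃ r : ℚ, algebraMap ℚ F r = x) ∧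
      ∀ σ : F ≃ₐ[ℚ] F, (∀ s ∈ l, σ s = s) → σ = 1 := by
  have hn := normal_of_gen l hd hadj
  have hG : IsGalois ℚ F := ⟨⟩
  constructor
  · intro x hx
    have := (IsGalois.mem_bot_iff_fixed (F := ℚ) x).2 hx
    rw [IntermediateField.mem_bot] at this
    exact this
  · intro σ hσ
    have h1 : Algebra.adjoin ℚ {s : F | s ∈ l} = ⊤ := by
      rw [← IntermediateField.adjoin_toSubalgebra_of_isAlgebraic
        (fun x _ => Algebra.IsAlgebraic.isAlgebraic x), hadj]
      rfl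
    have h2 : (σ : F →ₐ[ℚ] F) = AlgHom.id ℚ F := AlgHom.ext_of_adjoin_eq_top h1 (fun s hs => hσ s hs)
    ext x
    exact congrArg (fun f : F →ₐ[ℚ] F => f x) h2

/-- `X_0(15)` over a field generated by three square roots -/
theorem three {a b c : ℕ} (ha : 0 < a) (hb : 0 < b) (hc : 0 < c)
    (t1 : TF 1) (ta : TF a) (tb : TF b) (tc : TF c) (tab : TF (a * b)) (tac : TF (a * c)) (tbc : TF (b * c))
    (tabc : TF (a * b * c)) {x y z : F} (hx : x ^ 2 = a) (hy : y ^ 2 = b) (hz : z ^ 2 = c)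
    (hadj : IntermediateField.adjoin ℚ {x, y, z} = ⊤) :
    Finite (X015 F).toAffine.Point := by
  classical
  have hset : ({x, y, z} : Set F) = {s | s ∈ [x, y, z]} := by
    ext s; simp
  rw [hset] at hadj
  have haF : (a : F) ≠ 0 := by exact_mod_cast ha.ne'
  have hbF : (b : F) ≠ 0 := by exact_mod_cast hb.ne'
  have hcF : (c : F) ≠ 0 := by exact_mod_cast hc.ne'
  have hx0 : x ≠ 0 := by rintro rfl; apply haF; rw [← hx]; ring
  have hy0 : y ≠ 0 := by rintro rfl; apply hbF; rw [← hy]; ring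
  have hz0 : z ≠ 0 := by rintro rfl; apply hcF; rw [← hz]; ring
  have hsq : ∀ s ∈ [x, y, z], ∃ q : ℚ, s ^ 2 = algebraMap ℚ F q := by
    intro s hs
    simp only [List.mem_cons, List.not_mem_nil, or_false] at hs
    rcases hs with rfl | rfl | rfl
    · exact ⟨a, by rw [hx]; simp⟩
    · exact ⟨b, by rw [hy]; simp⟩
    · exact ⟨c, by rw [hz]; simp⟩
  obtain ⟨d, hd⟩ : ∃ d : F → ℚ, ∀ s ∈ [x, y, z], s ^ 2 = algebraMap ℚ F (d s) := by
    choose! d hd using hsq
    exact ⟨d, hd⟩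
  have hinj := (algebraMap ℚ F).injective
  have dx : d x = a := by
    apply hinj; rw [← hd x (by simp), hx]; simp
  have dy : d y = b := by
    apply hinj; rw [← hd y (by simp), hy]; simp
  have dz : d z = c := by
    apply hinj; rw [← hd z (by simp), hz]; simp
  obtain ⟨h1, h2⟩ := fixed_of_gen [x, y, z] (fun s hs => ⟨d s, hd s hs⟩) hadj
  have hf := multi h1 [x, y, z] (by
    intro s hs
    simp only [List.mem_cons, List.not_mem_nil, or_false] at hs
    rcases hs with rfl | rfl | rfl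
    · exact hx0
    · exact hy0
    · exact hz0) d hd h2 (by
    intro l' hl'
    have h3 : l' ∈ [x, y, z].sublists := List.mem_sublists.2 hl'
    have h4 : [x, y, z].sublists = [[], [x], [y], [x, y], [z], [x, z], [y, z], [x, y, z]] := by
      simp [List.sublists]
    rw [h4] at h3
    simp only [List.mem_cons, List.not_mem_nil, or_false] at h3
    rcases h3 with rfl | rfl | rfl | rfl | rfl | rfl | rfl | rfl
    · simpa using t1
    · simpa [dx] using ta
    · simpa [dy] using tb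
    · simpa [dx, dy] using tab
    · simpa [dz] using tc
    · simpa [dx, dz] using tac
    · simpa [dy, dz] using tbc
    · simpa [dx, dy, dz, mul_assoc] using tabc)
  have hWK : (crv (0 : ℚ) 9 (-16)).baseChange F = crv (0 : F) 9 (-16) := by
    rw [base_crv]
    simp
  have hX : Pool.Agent.Y700.VR (crv (0 : F) 9 (-16)) (X015 F) 2 4 1 4 := by
    refine ⟨two_ne_zero, ?_, ?_, ?_, ?_, ?_⟩ <;> simp only [crv, X015] <;> ring
  have hΔ : (X015 F).Δ ≠ 0 := by
    have e : (X015 F).Δ = 50625 := by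
      simp only [WeierstrassCurve.Δ, WeierstrassCurve.b₂, WeierstrassCurve.b₄,
        WeierstrassCurve.b₆, WeierstrassCurve.b₈, X015]
      ring
    rw [e]
    norm_num
  have hf' : Finite (crv (0 : F) 9 (-16)).toAffine.Point := by
    rw [← hWK]; exact hf
  exact Finite.of_equiv _ (hX.equiv hΔ).symm.toEquiv

end

/-! ### The twists -/

lemma Tw.tf {d p : ℕ} (H : Tw d p) : TF d :=
  TF_of_pt (Nat.pos_of_ne_zero H.sf.ne_zero) (finite_d H)

lemma tf1 : TF 1 := by
  have h : Finite (Pt (0 : ℚ) ((-16 * (1 : ℕ) : ℤ) : ℚ) ((9 * (1 : ℕ) : ℤ) : ℚ)) := by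
    have e : (crv (0 : ℚ) ((-16 * (1 : ℕ) : ℤ) : ℚ) ((9 * (1 : ℕ) : ℤ) : ℚ)) = crv (0 : ℚ) 9 (-16) := by
      apply WeierstrassCurve.ext <;> simp [crv] <;> norm_num
    show Finite (crv (0 : ℚ) ((-16 * (1 : ℕ) : ℤ) : ℚ) ((9 * (1 : ℕ) : ℤ) : ℚ)).toAffine.Point
    rw [e]
    exact Pool.Agent.V7H16.XF.finite_1
  have := TF_of_pt (d := 1) one_pos h
  simpa using this

lemma tf6 : TF 6 := by
  have := tw6.tf
  simpa using this

end Pool.Agent.V7H37.XG
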