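import Mathlib
import Pool.Agent.V7H37.XG.Fields

/-! The fields generated by square roots of positive numbers prime to `5`: totally real, without `√5`. -/

set_option autoImplicit false

open WeierstrassCurve Polynomial

namespace Pool.Agent.V7H37.XG

variable {F : Type} [Field F] [NumberField F]

theorem real_of_gen (S : Set F) (hd : ∀ s ∈ S, ∃ q : ℕ, s ^ 2 = (q : F))
    (hadj : IntermediateField.adjoin ℚ S = ⊤) : NumberField.IsTotallyReal F := by
  have h1 : Algebra.adjoin ℚ S = ⊤ := by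
    rw [← IntermediateField.adjoin_toSubalgebra_of_isAlgebraic
      (fun x _ => Algebra.IsAlgebraic.isAlgebraic x), hadj]
    rfl
  constructor
  intro v
  rw [NumberField.InfinitePlace.isReal_iff, NumberField.ComplexEmbedding.isReal_iff]
  have h2 : (NumberField.ComplexEmbedding.conjugate v.embedding).toRatAlgHom = v.embedding.toRatAlgHom := by
    refine AlgHom.ext_of_adjoin_eq_top h1 (fun s hs => ?_)
    obtain ⟨q, hq⟩ := hd s hs
    show (starRingEnd ℂ) (v.embedding s) = v.embedding s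
    have h3 : (v.embedding s) ^ 2 = ((Real.sqrt q : ℝ) : ℂ) ^ 2 := by
      rw [← map_pow, hq, map_natCast, ← Complex.ofReal_pow, Real.sq_sqrt (by positivity)]
      simp
    rcases sq_eq_sq_iff_eq_or_eq_neg.mp h3 with h4 | h4
    · rw [h4, Complex.conj_ofReal]
    · rw [h4, map_neg, Complex.conj_ofReal]
  ext x
  exact congrArg (fun f : F →ₐ[ℚ] ℂ => f x) h2

lemma not_sq5 {m : ℕ} (hm : ¬ 5 ∣ m) (r : ℚ) (h : r ^ 2 = 5 * m) : False := by
  have : Fact (Nat.Prime 5) := ⟨by norm_num⟩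
  have hm0 : (m : ℚ) ≠ 0 := by
    intro h0
    apply hm
    have : m = 0 := by exact_mod_cast h0
    rw [this]; exact dvd_zero _
  have hr : r ≠ 0 := by
    rintro rfl
    have : (5 : ℚ) * m ≠ 0 := mul_ne_zero (by norm_num) hm0
    apply this
    rw [← h]; norm_num
  have h1 := congrArg (padicValRat 5) h
  rw [padicValRat.pow, padicValRat.mul (by norm_num) hm0] at h1
  have h2 : padicValRat 5 (5 : ℚ) = 1 := by
    have := padicValRat.self (p := 5) (by norm_num)
    simpa using this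
  have h3 : padicValRat 5 (m : ℚ) = 0 := by
    rw [padicValRat.of_nat, padicValNat.eq_zero_of_not_dvd hm]
    rfl
  rw [h2, h3] at h1
  push_cast at h1
  omega

theorem no_root {a b c : ℕ} (ha : ¬ 5 ∣ a) (hb : ¬ 5 ∣ b) (hc : ¬ 5 ∣ c) {x y z : F}
    (hx : x ^ 2 = (a : F)) (hy : y ^ 2 = (b : F)) (hz : z ^ 2 = (c : F))
    (hadj : IntermediateField.adjoin ℚ {x, y, z} = ⊤) (w : F) : w ^ 2 ≠ 5 := by
  intro hw
  classical
  have hset : ({x, y, z} : Set F) = {s | s ∈ [x, y, z]} := by
    ext s; simp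
  rw [hset] at hadj
  have haF : (a : F) ≠ 0 := by
    intro h0
    apply ha
    have : a = 0 := by exact_mod_cast h0
    rw [this]; exact dvd_zero _
  have hbF : (b : F) ≠ 0 := by
    intro h0
    apply hb
    have : b = 0 := by exact_mod_cast h0
    rw [this]; exact dvd_zero _
  have hcF : (c : F) ≠ 0 := by
    intro h0
    apply hc
    have : c = 0 := by exact_mod_cast h0
    rw [this]; exact dvd_zero _
  have hx0 : x ≠ 0 := by rintro rfl; apply haF; rw [← hx]; ring
  have hy0 : y ≠ 0 := by rintro rfl; apply hbF; rw [← hy]; ring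
  have hz0 : z ≠ 0 := by rintro rfl; apply hcF; rw [← hz]; ring
  have hsq : ∀ s ∈ [x, y, z], ∃ q : ℚ, s ^ 2 = algebraMap ℚ F q := by
    intro s hs
    simp only [List.mem_cons, List.not_mem_nil, or_false] at hs
    rcases hs with rfl | rfl | rfl
    · exact ⟨a, by rw [hx]; simp⟩
    · exact ⟨b, by rw [hy]; simp⟩
    · exact ⟨c, by rw [hz]; simp⟩
  obtain ⟨h1, h2⟩ := fixed_of_gen [x, y, z] hsq hadj
  have hsgn : ∀ (s : F) (n : ℕ), s ^ 2 = (n : F) → ∀ σ : F ≃ₐ[ℚ] F, σ s = s ∨ σ s = -s := by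
    intro s n hs σ
    have h3 : (σ s) ^ 2 = s ^ 2 := by
      rw [← map_pow, hs, map_natCast]
    exact sq_eq_sq_iff_eq_or_eq_neg.mp h3
  have hw5 : w ^ 2 = ((5 : ℕ) : F) := by rw [hw]; norm_num
  have hw0 : w ≠ 0 := by
    rintro rfl
    have : (5 : F) ≠ 0 := by norm_num
    apply this
    rw [← hw]; ring
  obtain ⟨l', h3, r, h4⟩ := kummer h1 [x, y, z] (by
    intro s hs
    simp only [List.mem_cons, List.not_mem_nil, or_false] at hs
    rcases hs with rfl | rfl | rfl
    · exact ⟨hx0, hsgn _ a hx⟩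
    · exact ⟨hy0, hsgn _ b hy⟩
    · exact ⟨hz0, hsgn _ c hz⟩) w hw0 (hsgn w 5 hw5) (by
    intro σ hσ
    rw [h2 σ hσ]
    rfl)
  have h5 : (r : F) = w * l'.prod := by
    rw [← h4]; simp
  have h6 : (r : F) ^ 2 = 5 * (l'.prod) ^ 2 := by
    rw [h5, mul_pow, hw]
  have p5 : Nat.Prime 5 := by norm_num
  have fin : ∀ m : ℕ, ¬ 5 ∣ m → (l'.prod) ^ 2 = (m : F) → False := by
    intro m hm hl
    apply not_sq5 hm r
    rw [hl] at h6
    exact_mod_cast h6
  have h3' : l' ∈ [x, y, z].sublists := List.mem_sublists.2 h3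
  have h4' : [x, y, z].sublists = [[], [x], [y], [x, y], [z], [x, z], [y, z], [x, y, z]] := by
    simp [List.sublists]
  rw [h4'] at h3'
  simp only [List.mem_cons, List.not_mem_nil, or_false] at h3'
  rcases h3' with h | h | h | h | h | h | h | h
  · exact fin 1 (by norm_num) (by rw [h]; simp)
  · exact fin a ha (by rw [h]; simp [hx])
  · exact fin b hb (by rw [h]; simp [hy])
  · exact fin (a * b) (fun hh => (p5.dvd_mul.1 hh).elim ha hb) (by rw [h]; simp [mul_pow, hx, hy])
  · exact fin c hc (by rw [h]; simp [hz])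
  · exact fin (a * c) (fun hh => (p5.dvd_mul.1 hh).elim ha hc) (by rw [h]; simp [mul_pow, hx, hz])
  · exact fin (b * c) (fun hh => (p5.dvd_mul.1 hh).elim hb hc) (by rw [h]; simp [mul_pow, hy, hz])
  · exact fin (a * (b * c)) (fun hh => (p5.dvd_mul.1 hh).elim ha (fun h' => (p5.dvd_mul.1 h').elim hb hc))
      (by rw [h]; simp [mul_pow, hx, hy, hz])

end Pool.Agent.V7H37.XG
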