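import Mathlib

/-! The denominators grow under duplication. -/

set_option autoImplicit false

namespace Pool.Agent.V7H37.XG

lemma parity {d a b c e : ℤ} (hd : Squarefree d) (hae : IsCoprime a e) (hb : b ^ 2 = a ^ 2 + 9 * d * e ^ 2)
    (hc : c ^ 2 = a ^ 2 - 16 * d * e ^ 2) : ¬ (2 * a * b * c ∣ a ^ 4 + 144 * d ^ 2 * e ^ 4) := by
  intro h
  have h2 : (2 : ℤ) ∣ a ^ 4 + 144 * d ^ 2 * e ^ 4 := by
    refine Dvd.dvd.trans ⟨a * b * c, by ring⟩ h
  have ha : Even a := by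
    rcases Int.even_or_odd a with ha | ha
    · exact ha
    · obtain ⟨k, hk⟩ := h2
      have : Odd (a ^ 4) := ha.pow
      obtain ⟨j, hj⟩ := this
      exfalso
      have : 2 * j + 1 + 2 * (72 * d ^ 2 * e ^ 4) = 2 * k := by rw [← hj, ← hk]; ring
      omega
  have he : Odd e := by
    rcases Int.even_or_odd e with he | he
    · obtain ⟨s, t, hst⟩ := hae
      obtain ⟨u, hu⟩ := ha
      obtain ⟨v, hv⟩ := he
      exfalso
      have : 2 * (s * u + t * v) = 1 := by rw [← hst, hu, hv]; ring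
      omega
    · exact he
  obtain ⟨a1, ha1⟩ := ha
  have hcE : Even c := by
    rcases Int.even_or_odd c with hc' | hc'
    · exact hc'
    · obtain ⟨j, hj⟩ := hc'.pow (n := 2)
      exfalso
      have : 2 * j + 1 = 2 * (2 * a1 ^ 2 - 8 * d * e ^ 2) := by rw [← hj, hc, ha1]; ring
      omega
  obtain ⟨c1, hc1⟩ := hcE
  obtain ⟨e1, he1⟩ := he
  have hdo : Odd d := by
    rcases Int.even_or_odd d with hd' | hd'
    · exfalso
      obtain ⟨d1, hd1⟩ := hd'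
      have hbE : Even b := by
        rcases Int.even_or_odd b with hb' | hb'
        · exact hb'
        · obtain ⟨j, hj⟩ := hb'.pow (n := 2)
          exfalso
          have : 2 * j + 1 = 2 * (2 * a1 ^ 2 + 9 * d1 * e ^ 2) := by rw [← hj, hb, ha1, hd1]; ring
          omega
      obtain ⟨b1, hb1⟩ := hbE
      have h4 : (2 * 2 : ℤ) ∣ d := by
        have h5 : 4 * b1 ^ 2 = 4 * a1 ^ 2 + 9 * d * e ^ 2 := by
          have : b ^ 2 = 4 * b1 ^ 2 := by rw [hb1]; ring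
          rw [← this, hb, ha1]; ring
        refine ⟨b1 ^ 2 - a1 ^ 2 - 2 * d - 9 * d * (e1 ^ 2 + e1), ?_⟩
        rw [he1] at h5
        linear_combination -h5
      have := hd 2 h4
      rw [Int.isUnit_iff] at this
      omega
    · exact hd'
  obtain ⟨d1, hd1⟩ := hdo
  have h6 : a1 ^ 2 - c1 ^ 2 = 4 * d * e ^ 2 := by
    have e1' : c ^ 2 = 4 * c1 ^ 2 := by rw [hc1]; ring
    have e2' : a ^ 2 = 4 * a1 ^ 2 := by rw [ha1]; ring
    rw [e1', e2'] at hc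
    linarith
  have h7 : Even a1 ∧ Even c1 := by
    rcases Int.even_or_odd a1 with x | x <;> rcases Int.even_or_odd c1 with y | y
    · exact ⟨x, y⟩
    · exfalso
      obtain ⟨x1, hx⟩ := x
      obtain ⟨y1, hy⟩ := y
      have : 2 * (2 * x1 ^ 2 - 2 * y1 ^ 2 - 2 * y1 - 2 * d * e ^ 2) = 1 := by
        rw [hx, hy] at h6; linear_combination h6
      omega
    · exfalso
      obtain ⟨x1, hx⟩ := x
      obtain ⟨y1, hy⟩ := y
      have : 2 * (2 * y1 ^ 2 - 2 * x1 ^ 2 - 2 * x1 + 2 * d * e ^ 2) = 1 := by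
        rw [hx, hy] at h6; linear_combination -h6
      omega
    · exfalso
      obtain ⟨x1, hx⟩ := x
      obtain ⟨y1, hy⟩ := y
      obtain ⟨u, hu⟩ := Int.even_mul_succ_self x1
      obtain ⟨v, hv⟩ := Int.even_mul_succ_self y1
      -- 4 x1 (x1+1) - 4 y1 (y1+1) = 4 d e^2
      have h8 : 2 * (u - v) = d * e ^ 2 := by
        have : x1 * (x1 + 1) - y1 * (y1 + 1) = d * e ^ 2 := by
          rw [hx, hy] at h6; linarith
        rw [← this, hu, hv]; ring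
      have h9 : d * e ^ 2 = 2 * (d1 * e ^ 2 + 2 * e1 ^ 2 + 2 * e1) + 1 := by
        rw [hd1, he1]; ring
      omega
  obtain ⟨⟨a2, ha2⟩, c2, hc2⟩ := h7
  have h10 : (32 : ℤ) ∣ a ^ 4 + 144 * d ^ 2 * e ^ 4 := by
    refine Dvd.dvd.trans ⟨a2 * b * c2, ?_⟩ h
    rw [ha1, hc1, ha2, hc2]; ring
  obtain ⟨k, hk⟩ := h10
  have h11 : 16 * (16 * a2 ^ 4 + 9 * d ^ 2 * e ^ 4) = 32 * k := by
    rw [← hk, ha1, ha2]; ring
  have h12 : (d * e ^ 2) = 2 * (d1 * e ^ 2 + 2 * e1 ^ 2 + 2 * e1) + 1 := by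
    rw [hd1, he1]; ring
  have h13 : d ^ 2 * e ^ 4 = 2 * (2 * (d1 * e ^ 2 + 2 * e1 ^ 2 + 2 * e1) ^ 2 + 2 * (d1 * e ^ 2 + 2 * e1 ^ 2 + 2 * e1)) + 1 := by
    have : d ^ 2 * e ^ 4 = (d * e ^ 2) ^ 2 := by ring
    rw [this, h12]; ring
  have h14 : 9 * d ^ 2 * e ^ 4 = 9 * (d ^ 2 * e ^ 4) := by ring
  rw [h14, h13] at h11
  omega

/-- the denominator grows -/
lemma den_lt {d : ℤ} (hd : Squarefree d) {X X' u v w u' : ℚ} (h1 : d * X = u ^ 2) (h2 : d * (X + 9) = v ^ 2)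
    (h3 : d * (X - 16) = w ^ 2)
    (hX : 4 * (X * (X + 9) * (X - 16)) * X' = (X ^ 2 + 144) ^ 2) (h4 : d * X' = u' ^ 2) : u.den < u'.den := by
  have hd0 : (d : ℚ) ≠ 0 := by exact_mod_cast hd.ne_zero
  obtain ⟨a, ha⟩ : ∃ a, a = u.num := ⟨_, rfl⟩
  obtain ⟨e, he⟩ : ∃ e : ℤ, e = u.den := ⟨_, rfl⟩
  have he0 : (e : ℚ) ≠ 0 := by rw [he]; exact_mod_cast u.den_ne_zero
  have hue : u * e = a := by
    rw [he, ha]; push_cast; exact Rat.mul_den_eq_num u
  have hae : IsCoprime a e := by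
    rw [ha, he, Int.isCoprime_iff_gcd_eq_one]
    exact u.reduced
  have sqv : (v * e) ^ 2 = ((a ^ 2 + 9 * d * e ^ 2 : ℤ) : ℚ) := by
    push_cast
    rw [← hue, mul_pow, mul_pow, ← h2, ← h1]; ring
  have sqw : (w * e) ^ 2 = ((a ^ 2 - 16 * d * e ^ 2 : ℤ) : ℚ) := by
    push_cast
    rw [← hue, mul_pow, mul_pow, ← h3, ← h1]; ring
  obtain ⟨b, hb⟩ : IsSquare (a ^ 2 + 9 * d * e ^ 2 : ℤ) := by
    rw [← Rat.isSquare_intCast_iff]
    exact ⟨v * e, by rw [← sqv]; ring⟩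
  obtain ⟨c, hc⟩ : IsSquare (a ^ 2 - 16 * d * e ^ 2 : ℤ) := by
    rw [← Rat.isSquare_intCast_iff]
    exact ⟨w * e, by rw [← sqw]; ring⟩
  have key := parity hd hae (b := b) (c := c) (by rw [hb]; ring) (by rw [hc]; ring)
  obtain ⟨a', ha'⟩ : ∃ a, a = u'.num := ⟨_, rfl⟩
  obtain ⟨e', he'⟩ : ∃ e : ℤ, e = u'.den := ⟨_, rfl⟩
  have he0' : (e' : ℚ) ≠ 0 := by rw [he']; exact_mod_cast u'.den_ne_zero
  have hue' : u' * e' = a' := by
    rw [he', ha']; push_cast; exact Rat.mul_den_eq_num u'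
  have hae' : IsCoprime a' e' := by
    rw [ha', he', Int.isCoprime_iff_gcd_eq_one]
    exact u'.reduced
  have hbq : (b : ℚ) ^ 2 = (v * e) ^ 2 := by rw [sqv, hb]; push_cast; ring
  have hcq : (c : ℚ) ^ 2 = (w * e) ^ 2 := by rw [sqw, hc]; push_cast; ring
  have main : (a' * (2 * a * b * c * e)) ^ 2 = ((a ^ 4 + 144 * d ^ 2 * e ^ 4) * e') ^ 2 := by
    have : ((a' * (2 * a * b * c * e) : ℤ) : ℚ) ^ 2 = (((a ^ 4 + 144 * d ^ 2 * e ^ 4) * e' : ℤ) : ℚ) ^ 2 := by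
      push_cast
      have e1 : ((a' : ℚ) * (2 * a * b * c * e)) ^ 2 = a' ^ 2 * 4 * a ^ 2 * b ^ 2 * c ^ 2 * e ^ 2 := by ring
      rw [e1, hbq, hcq, ← hue', ← hue]
      have e2 : (u' * (e' : ℚ)) ^ 2 * 4 * (u * e) ^ 2 * (v * e) ^ 2 * (w * e) ^ 2 * e ^ 2 =
        u' ^ 2 * e' ^ 2 * 4 * u ^ 2 * v ^ 2 * w ^ 2 * e ^ 8 := by ring
      rw [e2, ← h1, ← h2, ← h3, ← h4]
      have e3 : ((u * (e : ℚ)) ^ 4 + 144 * d ^ 2 * e ^ 4) = (u ^ 2) ^ 2 * e ^ 4 + 144 * d ^ 2 * e ^ 4 := by ring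
      rw [e3, ← h1]
      linear_combination (d : ℚ) ^ 4 * e' ^ 2 * e ^ 8 * hX
    exact_mod_cast this
  have hN : IsCoprime (a ^ 4 + 144 * d ^ 2 * e ^ 4) e := by
    have h5 : IsCoprime (a ^ 4) e := hae.pow_left
    have h6 : a ^ 4 + 144 * d ^ 2 * e ^ 4 = a ^ 4 + e * (144 * d ^ 2 * e ^ 3) := by ring
    rw [h6]
    exact (IsCoprime.add_mul_left_left_iff).2 h5
  have hdiv : e ∣ e' ∧ e ≠ e' := by
    rcases sq_eq_sq_iff_eq_or_eq_neg.mp main with h5 | h5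
    · constructor
      · exact hN.symm.dvd_of_dvd_mul_left (by rw [← h5]; exact ⟨a' * (2 * a * b * c), by ring⟩)
      · rintro rfl
        apply key
        have h6 : a' * (2 * a * b * c) = a ^ 4 + 144 * d ^ 2 * e ^ 4 := by
          apply mul_right_cancel₀ (b := e) (by exact_mod_cast he0)
          linear_combination h5
        exact ⟨a', by rw [← h6]; ring⟩
    · constructor
      · exact hN.symm.dvd_of_dvd_mul_left (by
          have : (a ^ 4 + 144 * d ^ 2 * e ^ 4) * e' = -(a' * (2 * a * b * c * e)) := by rw [h5]; ring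
          rw [this]; exact ⟨-(a' * (2 * a * b * c)), by ring⟩)
      · rintro rfl
        apply key
        have h6 : -a' * (2 * a * b * c) = a ^ 4 + 144 * d ^ 2 * e ^ 4 := by
          apply mul_right_cancel₀ (b := e) (by exact_mod_cast he0)
          linear_combination -h5
        exact ⟨-a', by rw [← h6]; ring⟩
  obtain ⟨hd1, hd2⟩ := hdiv
  have p1 : 0 < u'.den := u'.den_pos
  have h8 : u.den ∣ u'.den := by
    rw [he, he'] at hd1
    exact_mod_cast hd1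
  have h9 := Nat.le_of_dvd p1 h8
  have h10 : u.den ≠ u'.den := by
    intro h0
    apply hd2
    rw [he, he', h0]
  omega

end Pool.Agent.V7H37.XG
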