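import Mathlib
import Pool.Agent.V7H37.XG.T1
import Pool.Agent.V7H16.XF.OverK

/-! Points of odd order with rational `x`-coordinate. -/

set_option autoImplicit false

open WeierstrassCurve

namespace Pool.Agent.V7H37.XG

open Pool.Agent.H437R2.Man.MW Pool.Agent.V7H16.XF

lemma dbl {K : Type} [Field K] [CharZero K] [DecidableEq K] {W : WeierstrassCurve K} (hW : W = crv 0 9 (-16))
    {x y : K} (h : W.toAffine.Nonsingular x y) (hy : y ≠ 0) :
    ∃ (x' y' : K) (h' : W.toAffine.Nonsingular x' y'),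
      Affine.Point.some x y h + Affine.Point.some x y h = Affine.Point.some x' y' h' ∧
        y ^ 2 = x * (x + 9) * (x - 16) ∧
        4 * y ^ 2 * x' = (x ^ 2 + 144) ^ 2 ∧ 4 * y ^ 2 * (x' + 9) = (x ^ 2 + 18 * x - 144) ^ 2 ∧
        4 * y ^ 2 * (x' - 16) = (x ^ 2 - 32 * x - 144) ^ 2 := by
  subst hW
  have q := crv_eqn.mp h.1
  have q' : y ^ 2 = x * (x + 9) * (x - 16) := by rw [q]; ring
  have hyn : y ≠ (crv (0 : K) 9 (-16)).toAffine.negY x y := by
    simp only [Affine.negY, crv]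
    intro h0
    apply hy
    have : 2 * y = 0 := by linear_combination h0
    simpa using this
  have main : ∃ (x' y' : K) (h' : (crv (0 : K) 9 (-16)).toAffine.Nonsingular x' y'),
      Affine.Point.some x y h + Affine.Point.some x y h = Affine.Point.some x' y' h' ∧
        4 * y ^ 2 * x' = (x ^ 2 + 144) ^ 2 := by
    refine ⟨_, _, _, Affine.Point.add_self_of_Y_ne hyn, ?_⟩
    have hs : (crv (0 : K) 9 (-16)).toAffine.slope x x y y * (2 * y) = 3 * x ^ 2 - 14 * x - 144 := by
      rw [Affine.slope_of_Y_ne rfl hyn]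
      simp only [Affine.negY, crv]
      have e : y - (-y - 0 * x - 0) = 2 * y := by ring
      rw [e, div_mul_cancel₀ _ (mul_ne_zero two_ne_zero hy)]
      ring
    rw [Affine.addX]
    obtain ⟨L, hL⟩ : ∃ L, L = (crv (0 : K) 9 (-16)).toAffine.slope x x y y := ⟨_, rfl⟩
    rw [← hL] at hs ⊢
    simp only [crv]
    linear_combination (L * (2 * y) + (3 * x ^ 2 - 14 * x - 144)) * hs + 4 * (7 - 2 * x) * q'
  obtain ⟨x', y', h', e1, e2⟩ := main
  refine ⟨x', y', h', e1, q', e2, ?_, ?_⟩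
  · linear_combination e2 + 36 * q'
  · linear_combination e2 - 64 * q'

lemma sqf_part {D : ℚ} (hD : D ≠ 0) : ∃ d : ℤ, Squarefree d ∧ ∃ m : ℚ, m ≠ 0 ∧ D = d * m ^ 2 := by
  obtain ⟨a, b, hab, ha⟩ := Nat.sq_mul_squarefree (D.num * D.den).natAbs
  have hden : (D.den : ℚ) ≠ 0 := by exact_mod_cast D.den_ne_zero
  have hz : D.num * D.den ≠ 0 := mul_ne_zero (Rat.num_ne_zero.2 hD) (by exact_mod_cast D.den_ne_zero)
  have hb0 : (b : ℚ) ≠ 0 := by
    intro h0
    have : b = 0 := by exact_mod_cast h0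
    rw [this] at hab
    apply hz
    rw [← Int.natAbs_eq_zero, ← hab]
    ring
  have hDz : D * (D.den : ℚ) ^ 2 = ((D.num * D.den : ℤ) : ℚ) := by
    push_cast
    have := Rat.mul_den_eq_num D
    linear_combination (D.den : ℚ) * this
  obtain ⟨n1, hn1⟩ : ∃ n1 : ℚ, n1 = D.den := ⟨_, rfl⟩
  rw [← hn1] at hDz hden
  rcases Int.natAbs_eq (D.num * D.den) with h | h
  · refine ⟨a, Int.squarefree_natCast.2 ha, b / n1, div_ne_zero hb0 hden, ?_⟩
    rw [← hab] at h
    rw [h] at hDz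
    push_cast at hDz
    rw [div_pow, ← mul_div_assoc, eq_div_iff (pow_ne_zero 2 hden), hDz]
    push_cast; ring
  · refine ⟨-a, ?_, b / n1, div_ne_zero hb0 hden, ?_⟩
    · rw [← Int.squarefree_natAbs]
      simpa using ha
    · rw [← hab] at h
      rw [h] at hDz
      push_cast at hDz
      rw [div_pow, ← mul_div_assoc, eq_div_iff (pow_ne_zero 2 hden), hDz]
      push_cast; ring

variable {F : Type} [Field F] [NumberField F] [DecidableEq F]

lemma base_odd {W : WeierstrassCurve F} (hW : W = crv 0 9 (-16)) {R : W.toAffine.Point} {n : ℕ} (hn : Odd n)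
    (hR : n • R = 0) {y0 : F}
    (hcoord : ∀ (m : ℕ) (x y : F) (h : W.toAffine.Nonsingular x y), m • R = Affine.Point.some x y h →
      ∃ X c : ℚ, x = algebraMap ℚ F X ∧ y = algebraMap ℚ F c * y0)
    {D : ℚ} (hD : y0 ^ 2 = algebraMap ℚ F D) (hD0 : D ≠ 0) : R = 0 := by
  by_contra hR0
  obtain ⟨d, hd, m0, hm0, hDd⟩ := sqf_part hD0
  have hd0 : (d : ℚ) ≠ 0 := by exact_mod_cast hd.ne_zero
  have hinj := (algebraMap ℚ F).injective
  have cop : ∀ m : ℕ, m.Coprime n → m • R ≠ 0 := by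
    intro m hm h0
    apply hR0
    have h1 := addOrderOf_dvd_of_nsmul_eq_zero h0
    have h2 := addOrderOf_dvd_of_nsmul_eq_zero hR
    have h3 := Nat.dvd_gcd h1 h2
    rw [hm] at h3
    exact AddMonoid.addOrderOf_eq_one_iff.1 (Nat.dvd_one.1 h3)
  have c2 : Nat.Coprime 2 n := (Nat.coprime_two_left).2 hn
  -- the coordinates of a multiple prime to n
  have co : ∀ m : ℕ, m.Coprime n → ∃ (X c : ℚ) (h : W.toAffine.Nonsingular (algebraMap ℚ F X) (algebraMap ℚ F c * y0)),
      m • R = Affine.Point.some _ _ h ∧ algebraMap ℚ F c * y0 ≠ 0 ∧ c ^ 2 * D = X * (X + 9) * (X - 16) := by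
    intro m hm
    have hne := cop m hm
    have h2ne := cop (2 * m) (Nat.Coprime.mul_left c2 hm)
    match hT : m • R with
    | 0 => exact absurd hT hne
    | .some x y h =>
      obtain ⟨X, c, rfl, rfl⟩ := hcoord m x y h hT
      refine ⟨X, c, h, rfl, ?_, ?_⟩
      · intro h0
        apply h2ne
        rw [mul_comm 2 m, mul_nsmul, hT, two_nsmul]
        apply Affine.Point.add_of_Y_eq rfl
        rw [h0]
        subst hW
        simp [Affine.negY, crv]
      · subst hW
        have q := crv_eqn.mp h.1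
        apply hinj
        simp only [map_mul, map_pow, map_add, map_sub, map_ofNat]
        rw [← hD]
        linear_combination q
  have step : ∀ i : ℕ, ∃ (X c u v w : ℚ) (h : W.toAffine.Nonsingular (algebraMap ℚ F X) (algebraMap ℚ F c * y0)),
      (2 ^ i) • R = Affine.Point.some _ _ h ∧ algebraMap ℚ F c * y0 ≠ 0 ∧ c ^ 2 * D = X * (X + 9) * (X - 16) ∧
      d * X = u ^ 2 ∧ d * (X + 9) = v ^ 2 ∧ d * (X - 16) = w ^ 2 := by
    intro i
    obtain ⟨X, c, h, e1, e2, e3⟩ := co (2 ^ i) (Nat.Coprime.pow_left i c2)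
    obtain ⟨k, hk⟩ := hn
    have hkc : Nat.Coprime (k + 1) n := by
      have : 2 * (k + 1) = n + 1 := by omega
      have h5 : Nat.Coprime (2 * (k + 1)) n := by
        rw [this]; simp
      exact Nat.Coprime.coprime_mul_left h5
    obtain ⟨q, s, h', f1, f2, f3⟩ := co ((k + 1) * 2 ^ i) (Nat.Coprime.mul_left hkc (Nat.Coprime.pow_left i c2))
    obtain ⟨x', y', h'', g1, g2, g3, g4, g5⟩ := dbl hW h' f2
    have g6 : Affine.Point.some _ _ h' + Affine.Point.some _ _ h' = Affine.Point.some _ _ h := by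
      rw [← f1, ← e1, ← add_nsmul]
      have : (k + 1) * 2 ^ i + (k + 1) * 2 ^ i = 2 ^ i + n * 2 ^ i := by rw [hk]; ring
      rw [this, add_nsmul, mul_nsmul, hR, smul_zero, add_zero]
    rw [g6] at g1
    simp only [Affine.Point.some.injEq] at g1
    rw [← g1.1, mul_pow, hD] at g3 g4 g5
    have hs0 : s ≠ 0 := by
      rintro rfl
      apply f2; simp
    have k3 : 4 * (s ^ 2 * D) * X = (q ^ 2 + 144) ^ 2 := by
      apply hinj
      simp only [map_mul, map_pow, map_add, map_sub, map_ofNat]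
      exact g3
    have k4 : 4 * (s ^ 2 * D) * (X + 9) = (q ^ 2 + 18 * q - 144) ^ 2 := by
      apply hinj
      simp only [map_mul, map_pow, map_add, map_sub, map_ofNat]
      exact g4
    have k5 : 4 * (s ^ 2 * D) * (X - 16) = (q ^ 2 - 32 * q - 144) ^ 2 := by
      apply hinj
      simp only [map_mul, map_pow, map_add, map_sub, map_ofNat]
      exact g5
    have hsm : 2 * s * m0 ≠ 0 := mul_ne_zero (mul_ne_zero two_ne_zero hs0) hm0
    refine ⟨X, c, (q ^ 2 + 144) / (2 * s * m0), (q ^ 2 + 18 * q - 144) / (2 * s * m0),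
      (q ^ 2 - 32 * q - 144) / (2 * s * m0), h, e1, e2, e3, ?_, ?_, ?_⟩
    · rw [div_pow, eq_div_iff (pow_ne_zero 2 hsm), ← k3, hDd]; ring
    · rw [div_pow, eq_div_iff (pow_ne_zero 2 hsm), ← k4, hDd]; ring
    · rw [div_pow, eq_div_iff (pow_ne_zero 2 hsm), ← k5, hDd]; ring
  choose X c u v w h e1 e2 e3 e4 e5 e6 using step
  have hrec : ∀ i, 4 * (X i * (X i + 9) * (X i - 16)) * X (i + 1) = (X i ^ 2 + 144) ^ 2 := by
    intro i
    obtain ⟨x', y', h'', g1, g2, g3, -, -⟩ := dbl hW (h i) (e2 i)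
    rw [← e1 i, ← add_nsmul] at g1
    have : 2 ^ i + 2 ^ i = 2 ^ (i + 1) := by ring
    rw [this, e1 (i + 1)] at g1
    simp only [Affine.Point.some.injEq] at g1
    rw [← g1.1, mul_pow, hD] at g3
    rw [← e3 i]
    apply hinj
    simp only [map_mul, map_pow, map_add, map_sub, map_ofNat]
    exact g3
  have lt : ∀ i, (u i).den < (u (i + 1)).den := fun i => den_lt hd (e4 i) (e5 i) (e6 i) (hrec i) (e4 (i + 1))
  have mono : StrictMono (fun i => (u i).den) := strictMono_nat_of_lt_succ lt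
  have n0 : 0 < n := hn.pos
  have hk := Nat.ModEq.pow_totient c2
  have hper : (2 ^ Nat.totient n) • R = (2 ^ 0) • R := by
    have h1 : n ∣ 2 ^ Nat.totient n - 1 := (Nat.modEq_iff_dvd' (Nat.one_le_two_pow)).1 hk.symm
    obtain ⟨t, ht⟩ := h1
    have h2 : 2 ^ Nat.totient n = 2 ^ 0 + n * t := by
      have := Nat.one_le_two_pow (n := Nat.totient n)
      rw [pow_zero]; omega
    rw [h2, add_nsmul, mul_nsmul, hR, smul_zero, add_zero]
  rw [e1, e1 0] at hper
  simp only [Affine.Point.some.injEq] at hper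
  have hX := hinj hper.1
  have hu : u (Nat.totient n) ^ 2 = u 0 ^ 2 := by
    rw [← e4, ← e4, hX]
  have hden : (u (Nat.totient n)).den = (u 0).den := by
    rcases sq_eq_sq_iff_eq_or_eq_neg.mp hu with h1 | h1
    · rw [h1]
    · rw [h1, Rat.neg_den]
  have := mono (Nat.totient_pos.2 n0)
  simp only [hden, lt_self_iff_false] at this

end Pool.Agent.V7H37.XG
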