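import Mathlib
import Pool.Agent.V7H37.XG.T2
import Pool.Agent.V7H37.XG.Multi

/-! No points of odd order over a field generated by square roots. -/

set_option autoImplicit false

open WeierstrassCurve

namespace Pool.Agent.V7H37.XG

open Pool.Agent.H437R2.Man.MW Pool.Agent.V7H16.XF

variable {F : Type} [Field F] [NumberField F]

theorem multi_odd (hfix : ∀ x : F, (∀ σ : F ≃ₐ[ℚ] F, σ x = x) → ∃ r : ℚ, algebraMap ℚ F r = x) (l : List F)
    (hl0 : ∀ s ∈ l, s ≠ 0) (d : F → ℚ) (hd : ∀ s ∈ l, s ^ 2 = algebraMap ℚ F (d s))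
    (hgen : ∀ σ : F ≃ₐ[ℚ] F, (∀ s ∈ l, σ s = s) → σ = 1)
    [DecidableEq F] (P : ((crv (0 : ℚ) 9 (-16)).baseChange F).toAffine.Point) (n : ℕ) (hn : Odd n)
    (hP : n • P = 0) : P = 0 := by
  classical
  have hl : ∀ s ∈ l, s ≠ 0 ∧ ∀ σ : F ≃ₐ[ℚ] F, σ s = s ∨ σ s = -s := by
    intro s hs
    refine ⟨hl0 s hs, fun σ => ?_⟩
    have h3 : (σ s) ^ 2 = s ^ 2 := by
      rw [← map_pow, hd s hs, AlgEquiv.commutes]
    exact sq_eq_sq_iff_eq_or_eq_neg.mp h3
  have hcomm : ∀ σ τ : F ≃ₐ[ℚ] F, σ * τ = τ * σ := by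
    intro σ τ
    have h1 : (τ * σ)⁻¹ * (σ * τ) = 1 := by
      apply hgen
      intro s hs
      have h2 : (σ * τ) s = (τ * σ) s := by
        rw [AlgEquiv.mul_apply, AlgEquiv.mul_apply]
        rcases (hl s hs).2 σ with e | e <;> rcases (hl s hs).2 τ with e' | e' <;>
          simp only [e, e', map_neg]
      rw [AlgEquiv.mul_apply, h2]
      exact (τ * σ).symm_apply_apply s
    exact (inv_mul_eq_one.1 h1).symm
  obtain ⟨W, hW⟩ : ∃ W, W = crv (0 : ℚ) 9 (-16) := ⟨_, rfl⟩
  revert P
  rw [← hW]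
  intro P hP
  have hWK : W.baseChange F = crv (0 : F) 9 (-16) := by
    rw [hW, base_crv]
    simp
  have hΔ : (W.baseChange F).Δ ≠ 0 := by
    rw [hWK, crv_Δ]
    norm_num
  obtain ⟨φ, hφ⟩ : ∃ φ : (F ≃ₐ[ℚ] F) → ((W.baseChange F).toAffine.Point →+ (W.baseChange F).toAffine.Point),
      ∀ σ, φ σ = Affine.Point.map (W' := W.toAffine) (σ : F →ₐ[ℚ] F) := ⟨_, fun _ => rfl⟩
  have hφs : ∀ (σ : F ≃ₐ[ℚ] F) {x y : F} (h : (W.baseChange F).toAffine.Nonsingular x y),
      ∃ h', φ σ (Affine.Point.some x y h) = Affine.Point.some (σ x) (σ y) h' := by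
    intro σ x y h
    rw [hφ]
    exact ⟨_, Affine.Point.map_some (σ : F →ₐ[ℚ] F) h⟩
  have hφc : ∀ σ τ R, φ σ (φ τ R) = φ τ (φ σ R) := by
    intro σ τ R
    match R with
    | 0 => simp only [map_zero]
    | .some x y h =>
      obtain ⟨h1, e1⟩ := hφs τ h
      obtain ⟨h2, e2⟩ := hφs σ h
      obtain ⟨h3, e3⟩ := hφs σ h1
      obtain ⟨h4, e4⟩ := hφs τ h2
      rw [e1, e2, e3, e4]
      simp only [Affine.Point.some.injEq]
      have := hcomm σ τ
      exact ⟨congrArg (fun f : F ≃ₐ[ℚ] F => f x) this, congrArg (fun f : F ≃ₐ[ℚ] F => f y) this⟩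
  have hφφ : ∀ σ R, φ σ (φ σ R) = R := by
    intro σ R
    have hσσ : σ * σ = 1 := by
      apply hgen
      intro s hs
      rw [AlgEquiv.mul_apply]
      rcases (hl s hs).2 σ with e | e <;> simp only [e, map_neg, neg_neg]
    match R with
    | 0 => simp only [map_zero]
    | .some x y h =>
      obtain ⟨h1, e1⟩ := hφs σ h
      obtain ⟨h3, e3⟩ := hφs σ h1
      rw [e1, e3]
      simp only [Affine.Point.some.injEq]
      exact ⟨congrArg (fun f : F ≃ₐ[ℚ] F => f x) hσσ, congrArg (fun f : F ≃ₐ[ℚ] F => f y) hσσ⟩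
  have heq : ∀ {x y : F}, (W.baseChange F).toAffine.Nonsingular x y → y ^ 2 = x * (x + 9) * (x - 16) := by
    intro x y h
    rw [hWK] at h
    have := crv_eqn.mp h.1
    linear_combination this
  have hdesc : ∀ (A : Set (F ≃ₐ[ℚ] F)) {x y : F} (h : (W.baseChange F).toAffine.Nonsingular x y),
      (∀ σ ∈ A, φ σ (.some x y h) = .some x y h) → (∀ σ ∉ A, φ σ (.some x y h) = -.some x y h) →
      (∀ σ : F ≃ₐ[ℚ] F, σ x = x) ∧ (∀ σ ∈ A, σ y = y) ∧ (∀ σ ∉ A, σ y = -y) := by
    intro A x y h h1 h2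
    have n : -(Affine.Point.some x y h : (W.baseChange F).toAffine.Point) =
        Affine.Point.some x (-y) (by
          have := (Affine.nonsingular_neg x y).2 h
          have e : (W.baseChange F).toAffine.negY x y = -y := by
            rw [hWK]; simp [Affine.negY, crv]
          rwa [e] at this) := by
      rw [Affine.Point.neg_some]
      simp only [Affine.Point.some.injEq, true_and]
      rw [hWK]; simp [Affine.negY, crv]
    refine ⟨fun σ => ?_, fun σ hσ => ?_, fun σ hσ => ?_⟩
    · obtain ⟨h', e⟩ := hφs σ h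
      by_cases hσ : σ ∈ A
      · have := h1 σ hσ
        rw [e] at this
        simp only [Affine.Point.some.injEq] at this
        exact this.1
      · have := h2 σ hσ
        rw [e, n] at this
        simp only [Affine.Point.some.injEq] at this
        exact this.1
    · obtain ⟨h', e⟩ := hφs σ h
      have := h1 σ hσ
      rw [e] at this
      simp only [Affine.Point.some.injEq] at this
      exact this.2
    · obtain ⟨h', e⟩ := hφs σ h
      have := h2 σ hσ
      rw [e, n] at this
      simp only [Affine.Point.some.injEq] at this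
      exact this.2
  have base : ∀ R : (W.baseChange F).toAffine.Point, n • R = 0 → (∀ σ : F ≃ₐ[ℚ] F, φ σ R = R ∨ φ σ R = -R) →
      R = 0 := by
    intro R hnR hR
    match hRR : R with
    | 0 => rfl
    | .some x y h =>
      rw [← hRR] at hnR hR ⊢
      by_cases hy : y = 0
      · have h2 : (2 : ℕ) • R = 0 := by
          rw [hRR, two_nsmul]
          apply Affine.Point.add_of_Y_eq rfl
          rw [hy, hWK]
          simp [Affine.negY, crv]
        obtain ⟨k, hk⟩ := hn
        rw [hk, add_nsmul, one_nsmul, mul_comm, mul_nsmul, smul_comm, h2, smul_zero, zero_add] at hnR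
        exact hnR
      · obtain ⟨A, hA⟩ : ∃ A : Set (F ≃ₐ[ℚ] F), A = {σ | φ σ R = R} := ⟨_, rfl⟩
        have hA1 : ∀ σ ∈ A, φ σ R = R := fun σ hσ => by rw [hA] at hσ; exact hσ
        have hA2 : ∀ σ ∉ A, φ σ R = -R := fun σ hσ => by rw [hA] at hσ; exact (hR σ).resolve_left hσ
        obtain ⟨k1, k2, k3⟩ := hdesc A h (by rw [← hRR]; exact hA1) (by rw [← hRR]; exact hA2)
        obtain ⟨x0, hx0⟩ := hfix x k1
        have hD : y ^ 2 = algebraMap ℚ F (x0 * (x0 + 9) * (x0 - 16)) := by
          rw [heq h, ← hx0]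
          simp only [map_mul, map_add, map_sub, map_ofNat]
        refine base_odd (W := W.baseChange F) hWK (n := n) hn hnR (y0 := y) ?_ hD ?_
        · intro m x' y' h' hm
          obtain ⟨j1, j2, j3⟩ := hdesc A h' (fun σ hσ => by rw [← hm, map_nsmul, hA1 σ hσ])
            (fun σ hσ => by rw [← hm, map_nsmul, hA2 σ hσ, smul_neg])
          obtain ⟨X, hX⟩ := hfix x' j1
          obtain ⟨c, hc⟩ := hfix (y' / y) (by
            intro σ
            rw [map_div₀]
            by_cases hσ : σ ∈ A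
            · rw [j2 σ hσ, k2 σ hσ]
            · rw [j3 σ hσ, k3 σ hσ, neg_div_neg_eq])
          exact ⟨X, c, hX.symm, by rw [hc, div_mul_cancel₀ _ hy]⟩
        · intro h0
          rw [h0, map_zero] at hD
          exact hy (pow_eq_zero_iff two_ne_zero |>.1 hD)
  have down : ∀ S : Finset (F ≃ₐ[ℚ] F), ∀ R, n • R = 0 → (∀ σ ∉ S, φ σ R = R ∨ φ σ R = -R) → R = 0 := by
    intro S
    induction S using Finset.induction_on with
    | empty =>
      intro R hnR hR
      exact base R hnR (fun σ => hR σ (Finset.notMem_empty σ))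
    | insert a S ha ih =>
      intro R hnR hR
      have s1 := ih (R + φ a R) (by rw [smul_add, ← map_nsmul, hnR, map_zero, add_zero]) (by
        intro σ hσ
        by_cases hσa : σ = a
        · subst hσa
          left
          rw [map_add, hφφ, add_comm]
        · rcases hR σ (by simp [hσa, hσ]) with e | e
          · left; rw [map_add, hφc, e]
          · right; rw [map_add, hφc, e, map_neg]; abel)
      have s2 := ih (R - φ a R) (by rw [smul_sub, ← map_nsmul, hnR, map_zero, sub_zero]) (by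
        intro σ hσ
        by_cases hσa : σ = a
        · subst hσa
          right
          rw [map_sub, hφφ]; abel
        · rcases hR σ (by simp [hσa, hσ]) with e | e
          · left; rw [map_sub, hφc, e]
          · right; rw [map_sub, hφc, e, map_neg]; abel)
      have e3 : (2 : ℕ) • R = R + φ a R + (R - φ a R) := by rw [two_nsmul]; abel
      rw [s1, s2, add_zero] at e3
      obtain ⟨k, hk⟩ := hn
      rw [hk, add_nsmul, one_nsmul, mul_comm, mul_nsmul, smul_comm, e3, smul_zero, zero_add] at hnR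
      exact hnR
  exact down Finset.univ P hP (fun σ hσ => absurd (Finset.mem_univ σ) hσ)

end Pool.Agent.V7H37.XG
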