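import Mathlib
import Pool.Agent.V7H37.XG.T3
import Pool.Agent.V7H37.XG.Real

/-! The points of `X_0(15)` over a field generated by square roots. -/

set_option autoImplicit false

open WeierstrassCurve

namespace Pool.Agent.V7H37.XG

open Pool.Agent.H437R2.Man.MW Pool.Agent.V7H16.XF Pool.Agent.V7H37.XE

variable {F : Type} [Field F] [NumberField F]

lemma two_power [DecidableEq F] {W : WeierstrassCurve F} (hW : W = crv 0 9 (-16)) (h5 : ¬ ∃ w : F, w ^ 2 = 5)
    (hi : ¬ ∃ w : F, w ^ 2 = -1) : ∀ (k : ℕ) (P : W.toAffine.Point), 2 ^ k • P = 0 →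
    ∀ (x y : F) (h : W.toAffine.Nonsingular x y), P = Affine.Point.some x y h →
      x = 0 ∨ x = -9 ∨ x = 16 ∨ x = 36 ∨ x = -4 := by
  intro k
  induction k with
  | zero =>
    intro P hP x y h hPs
    rw [pow_zero, one_nsmul, hPs] at hP
    exact absurd hP (Affine.Point.some_ne_zero h)
  | succ k ih =>
    intro P hP x y h hPs
    by_cases hy : y = 0
    · have q : y ^ 2 = x * (x + 9) * (x - 16) := by
        subst hW
        have q := crv_eqn.mp h.1
        rw [q]; ring
      rw [hy] at q
      have h4 : x * (x + 9) * (x - 16) = 0 := by rw [← q]; ring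
      rcases mul_eq_zero.1 h4 with h5 | h5
      · rcases mul_eq_zero.1 h5 with h6 | h6
        · exact Or.inl h6
        · exact Or.inr (Or.inl (by linear_combination h6))
      · exact Or.inr (Or.inr (Or.inl (by linear_combination h5)))
    · obtain ⟨x', y', h', e1, e2, e3, e4, e5⟩ := dbl hW h hy
      have e6 : 2 ^ k • (P + P) = 0 := by
        rw [← two_nsmul, ← mul_nsmul]
        rw [pow_succ, mul_comm] at hP
        exact hP
      have hy2 : (4 : F) * y ^ 2 ≠ 0 := mul_ne_zero (by norm_num) (pow_ne_zero 2 hy)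
      rcases ih (P + P) e6 x' y' h' (by rw [hPs]; exact e1) with r | r | r | r | r
      · exfalso
        apply hi
        have h7 : x ^ 2 + 144 = 0 := by
          have : (x ^ 2 + 144) ^ 2 = 0 := by rw [← e3, r]; ring
          exact pow_eq_zero_iff two_ne_zero |>.1 this
        refine ⟨x / 12, ?_⟩
        rw [div_pow, div_eq_iff (by norm_num)]
        linear_combination h7
      · exfalso
        apply hi
        refine ⟨(x ^ 2 + 144) / (6 * y), ?_⟩
        rw [div_pow, div_eq_iff (pow_ne_zero 2 (mul_ne_zero (by norm_num) hy)), ← e3, r]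
        ring
      · have h7 : x ^ 2 - 32 * x - 144 = 0 := by
          have : (x ^ 2 - 32 * x - 144) ^ 2 = 0 := by rw [← e5, r]; ring
          exact pow_eq_zero_iff two_ne_zero |>.1 this
        have h8 : (x - 36) * (x + 4) = 0 := by linear_combination h7
        rcases mul_eq_zero.1 h8 with h9 | h9
        · exact Or.inr (Or.inr (Or.inr (Or.inl (by linear_combination h9))))
        · exact Or.inr (Or.inr (Or.inr (Or.inr (by linear_combination h9))))
      · exfalso
        apply h5
        refine ⟨(x ^ 2 - 32 * x - 144) / (4 * y), ?_⟩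
        rw [div_pow, div_eq_iff (pow_ne_zero 2 (mul_ne_zero (by norm_num) hy)), ← e5, r]
        ring
      · exfalso
        apply hi
        refine ⟨(x ^ 2 + 144) / (4 * y), ?_⟩
        rw [div_pow, div_eq_iff (pow_ne_zero 2 (mul_ne_zero (by norm_num) hy)), ← e3, r]
        ring

/-- `X_0(15)` over a field generated by three square roots -/
theorem three_pts {a b c : ℕ} (h5 : ¬ ∃ w : F, w ^ 2 = 5) (hi : ¬ ∃ w : F, w ^ 2 = -1) (ha : 0 < a) (hb : 0 < b) (hc : 0 < c)
    (t1 : TF 1) (ta : TF a) (tb : TF b) (tc : TF c) (tab : TF (a * b)) (tac : TF (a * c)) (tbc : TF (b * c))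
    (tabc : TF (a * b * c)) {x y z : F} (hx : x ^ 2 = a) (hy : y ^ 2 = b) (hz : z ^ 2 = c)
    (hadj : IntermediateField.adjoin ℚ {x, y, z} = ⊤) :
    ∀ X Y : F, Y ^ 2 = X * (X + 9) * (X - 16) → X = 0 ∨ X = -9 ∨ X = 16 ∨ X = 36 ∨ X = -4 := by
  classical
  have hset : ({x, y, z} : Set F) = {s | s ∈ [x, y, z]} := by
    ext s; simp
  rw [hset] at hadj
  have haF : (a : F) ≠ 0 := by exact_mod_cast ha.ne'
  have hbF : (b : F) ≠ 0 := by exact_mod_cast hb.ne'
  have hcF : (c : F) ≠ 0 := by exact_mod_cast hc.ne'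
  have hx0 : x ≠ 0 := by rintro rfl; apply haF; rw [← hx]; ring
  have hy0 : y ≠ 0 := by rintro rfl; apply hbF; rw [← hy]; ring
  have hz0 : z ≠ 0 := by rintro rfl; apply hcF; rw [← hz]; ring
  have hsq : ∀ s ∈ [x, y, z], ∃ q : ℚ, s ^ 2 = algebraMap ℚ F q := by
    intro s hs
    simp only [List.mem_cons, List.not_mem_nil, or_false] at hs
    rcases hs with rfl | rfl | rfl
    · exact ⟨a, by rw [hx]; simp⟩
    · exact ⟨b, by rw [hy]; simp⟩
    · exact ⟨c, by rw [hz]; simp⟩
  obtain ⟨d, hd⟩ : ∃ d : F → ℚ, ∀ s ∈ [x, y, z], s ^ 2 = algebraMap ℚ F (d s) := by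
    choose! d hd using hsq
    exact ⟨d, hd⟩
  have hinj := (algebraMap ℚ F).injective
  have dx : d x = a := by
    apply hinj; rw [← hd x (by simp), hx]; simp
  have dy : d y = b := by
    apply hinj; rw [← hd y (by simp), hy]; simp
  have dz : d z = c := by
    apply hinj; rw [← hd z (by simp), hz]; simp
  obtain ⟨h1, h2⟩ := fixed_of_gen [x, y, z] (fun s hs => ⟨d s, hd s hs⟩) hadj
  have hf := multi h1 [x, y, z] (by
    intro s hs
    simp only [List.mem_cons, List.not_mem_nil, or_false] at hs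
    rcases hs with rfl | rfl | rfl
    · exact hx0
    · exact hy0
    · exact hz0) d hd h2 (by
    intro l' hl'
    have h3 : l' ∈ [x, y, z].sublists := List.mem_sublists.2 hl'
    have h4 : [x, y, z].sublists = [[], [x], [y], [x, y], [z], [x, z], [y, z], [x, y, z]] := by
      simp [List.sublists]
    rw [h4] at h3
    simp only [List.mem_cons, List.not_mem_nil, or_false] at h3
    rcases h3 with rfl | rfl | rfl | rfl | rfl | rfl | rfl | rfl
    · simpa using t1
    · simpa [dx] using ta
    · simpa [dy] using tb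
    · simpa [dx, dy] using tab
    · simpa [dz] using tc
    · simpa [dx, dz] using tac
    · simpa [dy, dz] using tbc
    · simpa [dx, dy, dz, mul_assoc] using tabc)
  have hl0 : ∀ s ∈ [x, y, z], s ≠ 0 := by
    intro s hs
    simp only [List.mem_cons, List.not_mem_nil, or_false] at hs
    rcases hs with rfl | rfl | rfl
    · exact hx0
    · exact hy0
    · exact hz0
  have hodd := multi_odd h1 [x, y, z] hl0 d hd h2
  have hWK : (crv (0 : ℚ) 9 (-16)).baseChange F = crv (0 : F) 9 (-16) := by
    rw [base_crv]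
    simp
  intro X Y hXY
  have hns : (crv (0 : F) 9 (-16)).toAffine.Nonsingular X Y :=
    crv_nonsing (by norm_num) (by norm_num) (by norm_num) (by rw [hXY]; ring)
  rw [hWK] at hf hodd
  obtain ⟨P, hP⟩ : ∃ P : (crv (0 : F) 9 (-16)).toAffine.Point, P = Affine.Point.some X Y hns := ⟨_, rfl⟩
  have hfo : IsOfFinAddOrder P := isOfFinAddOrder_of_finite P
  obtain ⟨k, m, hm, hkm⟩ := Nat.exists_eq_two_pow_mul_odd hfo.addOrderOf_pos.ne'
  have h3 : 2 ^ k • P = 0 := by
    apply hodd _ m hm
    rw [← mul_nsmul, ← hkm, addOrderOf_nsmul_eq_zero]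
  exact two_power rfl h5 hi k P h3 X Y hns hP

end Pool.Agent.V7H37.XG
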