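import Mathlib
import Pool.Agent.V7H37.XG.T4

/-! The points of the curves 15a1 and 15a3. -/

set_option autoImplicit false

namespace Pool.Agent.V7H37.XG

variable {F : Type} [Field F] [NumberField F]

lemma not_neg_one (h : NumberField.IsTotallyReal F) : ¬ ∃ w : F, w ^ 2 = -1 := by
  rintro ⟨w, hw⟩
  obtain ⟨v⟩ := (inferInstance : Nonempty (NumberField.InfinitePlace F))
  have hr := h.isReal v
  rw [NumberField.InfinitePlace.isReal_iff] at hr
  have h1 : (starRingEnd ℂ) (v.embedding w) = v.embedding w :=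
    congrArg (fun f : F →+* ℂ => f w) (NumberField.ComplexEmbedding.isReal_iff.1 hr)
  obtain ⟨r, hr'⟩ := Complex.conj_eq_iff_real.1 h1
  have h2 : (v.embedding w) ^ 2 = -1 := by rw [← map_pow, hw]; simp
  rw [hr'] at h2
  have h3 : r ^ 2 = -1 := by exact_mod_cast h2
  nlinarith [sq_nonneg r]

lemma pts1 (H : ∀ X Y : F, Y ^ 2 = X * (X + 9) * (X - 16) → X = 0 ∨ X = -9 ∨ X = 16 ∨ X = 36 ∨ X = -4)
    (X Y : F) : Y ^ 2 + X * Y + Y = X ^ 3 + X ^ 2 - 10 * X - 10 ↔
      (X, Y) ∈ ({(-1, 0), (-13 / 4, 9 / 8), (3, -2), (8, 18), (8, -27), (-2, 3), (-2, -2)} : Set (F × F)) := by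
  constructor
  · intro h
    simp only [Set.mem_insert_iff, Set.mem_singleton_iff, Prod.mk.injEq]
    rcases H (4 * X + 4) (4 * (2 * Y + X + 1)) (by linear_combination 64 * h) with r | r | r | r | r
    · have hX : X = -1 := by linear_combination r / 4
      subst hX
      have hY : Y ^ 2 = 0 := by linear_combination h
      exact Or.inl ⟨rfl, pow_eq_zero_iff two_ne_zero |>.1 hY⟩
    · have hX : X = -13 / 4 := by linear_combination r / 4
      subst hX
      have hY : (Y - 9 / 8) ^ 2 = 0 := by linear_combination h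
      exact Or.inr (Or.inl ⟨rfl, sub_eq_zero.1 (pow_eq_zero_iff two_ne_zero |>.1 hY)⟩)
    · have hX : X = 3 := by linear_combination r / 4
      subst hX
      have hY : (Y + 2) ^ 2 = 0 := by linear_combination h
      have := pow_eq_zero_iff two_ne_zero |>.1 hY
      exact Or.inr (Or.inr (Or.inl ⟨rfl, by linear_combination this⟩))
    · have hX : X = 8 := by linear_combination r / 4
      subst hX
      have hY : (Y - 18) * (Y + 27) = 0 := by linear_combination h
      rcases mul_eq_zero.1 hY with e | e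
      · exact Or.inr (Or.inr (Or.inr (Or.inl ⟨rfl, by linear_combination e⟩)))
      · exact Or.inr (Or.inr (Or.inr (Or.inr (Or.inl ⟨rfl, by linear_combination e⟩))))
    · have hX : X = -2 := by linear_combination r / 4
      subst hX
      have hY : (Y - 3) * (Y + 2) = 0 := by linear_combination h
      rcases mul_eq_zero.1 hY with e | e
      · exact Or.inr (Or.inr (Or.inr (Or.inr (Or.inr (Or.inl ⟨rfl, by linear_combination e⟩)))))
      · exact Or.inr (Or.inr (Or.inr (Or.inr (Or.inr (Or.inr ⟨rfl, by linear_combination e⟩)))))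
  · simp only [Set.mem_insert_iff, Set.mem_singleton_iff, Prod.mk.injEq]
    rintro (⟨rfl, rfl⟩ | ⟨rfl, rfl⟩ | ⟨rfl, rfl⟩ | ⟨rfl, rfl⟩ | ⟨rfl, rfl⟩ | ⟨rfl, rfl⟩ | ⟨rfl, rfl⟩) <;> norm_num

lemma pts3 (H : ∀ X Y : F, Y ^ 2 = X * (X + 9) * (X - 16) → X = 0 ∨ X = -9 ∨ X = 16 ∨ X = 36 ∨ X = -4)
    (h5 : ¬ ∃ w : F, w ^ 2 = 5)
    (X Y : F) : Y ^ 2 + X * Y + Y = X ^ 3 + X ^ 2 - 5 * X + 2 ↔
      (X, Y) ∈ ({(1, -1), (3 / 4, -7 / 8), (-3, 1), (2, 1), (2, -4), (0, 1), (0, -2)} : Set (F × F)) := by
  constructor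
  · intro h
    simp only [Set.mem_insert_iff, Set.mem_singleton_iff, Prod.mk.injEq]
    obtain ⟨x, hx⟩ : ∃ x, x = 4 * X - 4 := ⟨_, rfl⟩
    obtain ⟨y, hy⟩ : ∃ y, y = 4 * (2 * Y + X + 1) := ⟨_, rfl⟩
    have hy2 : y ^ 2 = x * (x + 1) * (x + 16) := by
      rw [hx, hy]; linear_combination 64 * h
    by_cases hx0 : x = 0
    · have hX : X = 1 := by linear_combination (hx0 - hx) / 4
      subst hX
      have hY : (Y + 1) ^ 2 = 0 := by linear_combination h
      have := pow_eq_zero_iff two_ne_zero |>.1 hY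
      exact Or.inl ⟨rfl, by linear_combination this⟩
    · have h6 : (y * (16 - x ^ 2) / x ^ 2) ^ 2 =
          ((x + 4) ^ 2 / x) * ((x + 4) ^ 2 / x + 9) * ((x + 4) ^ 2 / x - 16) := by
        rw [div_pow, mul_pow, hy2]
        field_simp
        ring
      rcases H _ _ h6 with r | r | r | r | r
      · rw [div_eq_iff hx0, zero_mul] at r
        have h7 := pow_eq_zero_iff two_ne_zero |>.1 r
        have hX : X = 0 := by linear_combination (h7 - hx) / 4
        subst hX
        have hY : (Y - 1) * (Y + 2) = 0 := by linear_combination h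
        rcases mul_eq_zero.1 hY with e | e
        · exact Or.inr (Or.inr (Or.inr (Or.inr (Or.inr (Or.inl ⟨rfl, by linear_combination e⟩)))))
        · exact Or.inr (Or.inr (Or.inr (Or.inr (Or.inr (Or.inr ⟨rfl, by linear_combination e⟩)))))
      · rw [div_eq_iff hx0] at r
        have h7 : (x + 1) * (x + 16) = 0 := by linear_combination r
        rcases mul_eq_zero.1 h7 with e | e
        · have hX : X = 3 / 4 := by linear_combination (e - hx) / 4
          subst hX
          have hY : (Y + 7 / 8) ^ 2 = 0 := by linear_combination h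
          have := pow_eq_zero_iff two_ne_zero |>.1 hY
          exact Or.inr (Or.inl ⟨rfl, by linear_combination this⟩)
        · have hX : X = -3 := by linear_combination (e - hx) / 4
          subst hX
          have hY : (Y - 1) ^ 2 = 0 := by linear_combination h
          have := pow_eq_zero_iff two_ne_zero |>.1 hY
          exact Or.inr (Or.inr (Or.inl ⟨rfl, by linear_combination this⟩))
      · rw [div_eq_iff hx0] at r
        have h7 : (x - 4) ^ 2 = 0 := by linear_combination r
        have h8 := pow_eq_zero_iff two_ne_zero |>.1 h7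
        have hX : X = 2 := by linear_combination (h8 - hx) / 4
        subst hX
        have hY : (Y - 1) * (Y + 4) = 0 := by linear_combination h
        rcases mul_eq_zero.1 hY with e | e
        · exact Or.inr (Or.inr (Or.inr (Or.inl ⟨rfl, by linear_combination e⟩)))
        · exact Or.inr (Or.inr (Or.inr (Or.inr (Or.inl ⟨rfl, by linear_combination e⟩))))
      · exfalso
        rw [div_eq_iff hx0] at r
        apply h5
        refine ⟨y / (3 * x), ?_⟩
        rw [div_pow, div_eq_iff (pow_ne_zero 2 (mul_ne_zero (by norm_num) hx0)), hy2]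
        linear_combination x * r
      · exfalso
        rw [div_eq_iff hx0] at r
        apply h5
        refine ⟨y / x, ?_⟩
        rw [div_pow, div_eq_iff (pow_ne_zero 2 hx0), hy2]
        linear_combination x * r
  · simp only [Set.mem_insert_iff, Set.mem_singleton_iff, Prod.mk.injEq]
    rintro (⟨rfl, rfl⟩ | ⟨rfl, rfl⟩ | ⟨rfl, rfl⟩ | ⟨rfl, rfl⟩ | ⟨rfl, rfl⟩ | ⟨rfl, rfl⟩ | ⟨rfl, rfl⟩) <;> norm_num

end Pool.Agent.V7H37.XG
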